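import Pool.Agent.Y990.CB.PartA

set_option autoImplicit false

open MeasureTheory Set

/-!
Project SH: statements about percolation on `Z^d`.
-/

namespace Pool.Agent.Y990.SH

open Pool.Agent.W783.PC (pm DepOn Inc)
open Pool.Agent.Y990.CB

noncomputable section

/-- Some cluster of the region `V` contains at least the fraction `ε / 2` of the cell around `z`,
but no cluster of the box of radius `ρ` around `z` contained in it contains at least the fraction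
`ε / 4` of the cell. -/
def Du {d : ℕ} (M : Mod d) (V : Set (Z d)) (z : Z d) (n ρ : ℕ) (ε : ℝ) : Set (M.ι → Bool) :=
  {ω | ∃ x ∈ Bo z n, ε / 2 * ((2 * n + 1 : ℕ) : ℝ) ^ d ≤ ((cl M ω V x ∩ Bo z n).ncard : ℝ) ∧
    ∀ y ∈ cl M ω V x ∩ Bo z n,
      ((cl M ω (Bo z ρ) y ∩ Bo z n).ncard : ℝ) < ε / 4 * ((2 * n + 1 : ℕ) : ℝ) ^ d}

/-- Probability that two random vertices of the cell are connected in the box of radius `ρ`. -/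
def en {d : ℕ} (M : Mod d) (p : unitInterval) (n ρ : ℕ) : ℝ :=
  (∑ x ∈ Bf (0 : Z d) n, ∑ y ∈ Bf (0 : Z d) n, (mu M p).real (Cn M (Bo 0 ρ) x y)) /
    (((2 * n + 1 : ℕ) : ℝ) ^ d) ^ 2

/-- DUST: Markov's inequality for the energy. -/
def S_dust : Prop := ∀ (d : ℕ) (M : Mod d) (p : unitInterval) (V : Set (Z d)) (z : Z d)
  (n ρ ρ' : ℕ) (ε : ℝ), 0 < ε → Bo z ρ ⊆ V → V ⊆ Bo z ρ' →
  (mu M p).real (Du M V z n ρ ε) ≤ 8 / ε ^ 2 * (en M p n ρ' - en M p n ρ)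

/-- REP: representatives of the large clusters. -/
def S_rep : Prop := ∀ (d : ℕ) (M : Mod d) (n ρ A : ℕ) (ε : ℝ), 0 < ε → 4 / ε ≤ A →
  ∃ rep : (M.ι → Bool) → Fin A → Z d,
    (∀ ω ω' : M.ι → Bool, (∀ c ∈ In M (Bo 0 ρ), ω c = ω' c) → rep ω = rep ω') ∧
    (∀ ω a, rep ω a ∈ Bo (0 : Z d) n) ∧
    ∀ ω, ∀ y ∈ Bo (0 : Z d) n,
      ε / 4 * ((2 * n + 1 : ℕ) : ℝ) ^ d ≤ ((cl M ω (Bo 0 ρ) y ∩ Bo 0 n).ncard : ℝ) →
      ∃ a, rep ω a ∈ cl M ω (Bo 0 ρ) y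

open scoped Classical in
/-- TILE: a dense subset of a box tiled by cells has a positive fraction in a positive fraction of
the inner cells. -/
def S_tile : Prop := ∀ (d n K r : ℕ) (ε : ℝ) (C : Set (Z d)), r ≤ K → 0 < ε →
  (1 - ε / 4) * ((2 * K + 1 : ℕ) : ℝ) ^ d ≤ ((2 * (K - r) + 1 : ℕ) : ℝ) ^ d →
  C ⊆ Bo 0 (K * (2 * n + 1) + n) →
  ε * ((2 * (K * (2 * n + 1) + n) + 1 : ℕ) : ℝ) ^ d ≤ (C.ncard : ℝ) →
  ε / 4 * ((2 * K + 1 : ℕ) : ℝ) ^ d ≤ (((Bf (0 : Z d) (K - r)).filter (fun k =>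
    ε / 2 * ((2 * n + 1 : ℕ) : ℝ) ^ d ≤ ((C ∩ Bo ((2 * n + 1 : ℤ) • k) n).ncard : ℝ))).card : ℝ)

/-- CRIT: generic renormalisation criterion. -/
def S_crit : Prop := ∀ (d : ℕ) (M : Mod d) (p : unitInterval) (i j : Fin d) (w R N : ℕ) (q : ℝ)
  (H : (M.ι → Bool) → Z d → Z d → Prop) (Gs : Z d → Set (M.ι → Bool)), i ≠ j → 1 ≤ w → 1 ≤ R →
  (∀ z, DepOn (Gs z) (In M (Bo z (R * w)))) → (∀ z, (mu M p).real (Gs z)ᶜ ≤ q) →
  2 * (3 * (R : ℝ) + 1) * q ≤ 1 / 10 ^ 12 / 2 → (∀ ω z x, H ω z x → x ∈ Bo z N) →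
  (∀ ω z, ω ∈ Gs z → ∃ x, H ω z x) →
  (∀ ω z z' x y, ω ∈ Gs z → (z' = z ∨ z' = z + Pi.single i (w : ℤ) ∨
    z' = z + Pi.single j (w : ℤ)) → H ω z x → H ω z' y → (G M ω univ).Reachable x y) →
  ∃ δ : ℝ, 0 < δ ∧ ∀ p' : unitInterval, |(p' : ℝ) - p| ≤ δ → 0 < th M p'

end

end Pool.Agent.Y990.SH
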