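import Mathlib

set_option autoImplicit false

open MeasureTheory

/-!
Project SH (no giant cluster at the critical point, nearest-neighbour percolation on `Z^d`, every
`d >= 2`): abstract statements.  Each `S_*` is to be proved in its own file.
-/

namespace Pool.Agent.Y990.SH

noncomputable section

/-- Targets: a point of the grid and a number. -/
abbrev Tg (g m : ℕ) : Type := (Fin g × Fin g) × Fin m

/-- Targets and references. -/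
abbrev Idx (g m J : ℕ) : Type := Tg g m ⊕ Fin J

/-- The three grid points of an axis-parallel corner. -/
def Cor {g : ℕ} (a₀ a₁ b₀ b₁ : Fin g) : Finset (Fin g × Fin g) := {(a₀, b₀), (a₁, b₀), (a₀, b₁)}

section

variable {A g m J : ℕ} {X : Type} [Fintype X]

open scoped Classical in
/-- Weight of the references related to both `(t, x, a)` and `(t', y, a')`. -/
def ov (μ : X → ℝ) (Rl : Tg g m → X → Fin A → Fin J → X → Fin A → Prop)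
    (t : Tg g m) (x : X) (a : Fin A) (t' : Tg g m) (y : X) (a' : Fin A) : ℝ :=
  (∑ l : Fin J, ∑ z : X, ∑ b : Fin A, if Rl t x a l z b ∧ Rl t' y a' l z b then μ z else 0) /
    (J * A)

open scoped Classical in
/-- Weight of the pairs of types related to the reference type `(l, z, b)` which have few common
references. -/
def be (μ : X → ℝ) (Rl : Tg g m → X → Fin A → Fin J → X → Fin A → Prop) (ρ : ℝ)
    (t t' : Tg g m) (l : Fin J) (z : X) (b : Fin A) : ℝ :=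
  ∑ x : X, ∑ y : X, ∑ a : Fin A, ∑ a' : Fin A,
    if Rl t x a l z b ∧ Rl t' y a' l z b ∧ ov μ Rl t x a t' y a' < ρ then μ x * μ y else 0

end

open scoped Classical in
/-- SEL: selection of a corner and of a reference type by averaging. -/
def S_sel : Prop := ∀ (A g m J : ℕ) (α ρ : ℝ) (X : Type) [Fintype X] (μ : X → ℝ)
  (S : Finset (Fin g × Fin g)) (Rl : Tg g m → X → Fin A → Fin J → X → Fin A → Prop),
  1 ≤ A → 1 ≤ g → 1 ≤ m → 1 ≤ J → 0 < α → 8 * (A : ℝ) ^ 2 ≤ α * g → 0 < ρ →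
  (∀ x, 0 ≤ μ x) → ∑ x, μ x = 1 → α * (g : ℝ) ^ 2 ≤ S.card →
  (∀ s ∈ S, ∀ (i : Fin m) (l : Fin J), 1 / 2 ≤ ∑ x, ∑ z,
    if ∃ a b, Rl (s, i) x a l z b then μ x * μ z else 0) →
  ∃ (a₀ a₁ b₀ b₁ : Fin g) (l : Fin J) (z : X) (b : Fin A), a₀ < a₁ ∧ b₀ < b₁ ∧
    Cor a₀ a₁ b₀ b₁ ⊆ S ∧
    α / (8 * A ^ 2 * g ^ 4) * m ≤ ∑ i : Fin m, ∑ x,
      (if ∃ a, ∀ s ∈ Cor a₀ a₁ b₀ b₁, Rl (s, i) x a l z b then μ x else 0) ∧
    ∑ s ∈ Cor a₀ a₁ b₀ b₁, ∑ s' ∈ Cor a₀ a₁ b₀ b₁, ∑ i : Fin m, ∑ i' : Fin m,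
      be μ Rl ρ (s, i) (s', i') l z b ≤ 72 * A ^ 4 * g ^ 4 * m ^ 2 * ρ / α

/-- The relation: given the states `x` and `z`, the type `a` of the target `t` and the type `b` of
the reference `l` are connected with probability at least `1 - δ`. -/
def Rel {A g m J : ℕ} {Ω X : Type} [MeasurableSpace Ω] (P : Measure Ω)
    (W : Idx g m J → Ω → X) (μ : X → ℝ) (N : Idx g m J → Fin A → Idx g m J → Fin A → Set Ω)
    (δ : ℝ) (t : Tg g m) (x : X) (a : Fin A) (l : Fin J) (z : X) (b : Fin A) : Prop :=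
  P.real (N (Sum.inl t) a (Sum.inr l) b ∩ {ω | W (Sum.inl t) ω = x ∧ W (Sum.inr l) ω = z}) ≤
    δ * (μ x * μ z)

open scoped Classical in
/-- HALF: at least half of the pairs of states are related. -/
def S_half : Prop := ∀ (A g m J : ℕ) (δ δ₁ : ℝ) (Ω X : Type) [MeasurableSpace Ω] [Fintype X]
  (P : Measure Ω) [IsProbabilityMeasure P] (W : Idx g m J → Ω → X) (μ : X → ℝ)
  (N : Idx g m J → Fin A → Idx g m J → Fin A → Set Ω) (t : Tg g m) (l : Fin J),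
  1 ≤ A → 0 < δ₁ → δ ≤ δ₁ ^ (A * A) / 2 →
  (∀ t x, MeasurableSet {ω | W t ω = x}) → (∀ t a t' a', MeasurableSet (N t a t' a')) →
  (∀ x : Idx g m J → X, P.real {ω | ∀ t, W t ω = x t} = ∏ t, μ (x t)) →
  (∀ x, 0 ≤ μ x) → ∑ x, μ x = 1 →
  (∀ x z, ∏ a : Fin A, ∏ b : Fin A, P.real (N (Sum.inl t) a (Sum.inr l) b ∩
      {ω | W (Sum.inl t) ω = x ∧ W (Sum.inr l) ω = z}) ≤
    P.real {ω | W (Sum.inl t) ω = x ∧ W (Sum.inr l) ω = z} ^ (A * A - 1) *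
      P.real ({ω | ∀ a b, ω ∈ N (Sum.inl t) a (Sum.inr l) b} ∩
        {ω | W (Sum.inl t) ω = x ∧ W (Sum.inr l) ω = z})) →
  P.real {ω | ∀ a b, ω ∈ N (Sum.inl t) a (Sum.inr l) b} ≤ δ →
  1 / 2 ≤ ∑ x, ∑ z, if ∃ a b, Rel P W μ N δ₁ t x a l z b then μ x * μ z else 0

/-- BADP: two related types of distinct targets are connected with large probability. -/
def S_badp : Prop := ∀ (A g m J : ℕ) (δ₁ ρ : ℝ) (Ω X : Type) [MeasurableSpace Ω] [Fintype X]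
  (P : Measure Ω) [IsProbabilityMeasure P] (W : Idx g m J → Ω → X) (μ : X → ℝ)
  (N : Idx g m J → Fin A → Idx g m J → Fin A → Set Ω) (t t' : Tg g m) (l : Fin J) (z : X)
  (b : Fin A), 1 ≤ A → 0 < δ₁ → 0 < ρ → t ≠ t' →
  (∀ t x, MeasurableSet {ω | W t ω = x}) → (∀ t a t' a', MeasurableSet (N t a t' a')) →
  (∀ x : Idx g m J → X, P.real {ω | ∀ t, W t ω = x t} = ∏ t, μ (x t)) →
  (∀ x, 0 ≤ μ x) → ∑ x, μ x = 1 →
  (∀ t a t' a' l b, N t a t' a' ⊆ N t a (Sum.inr l) b ∪ N t' a' (Sum.inr l) b) →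
  P.real {ω | ∃ a a', Rel P W μ N δ₁ t (W (Sum.inl t) ω) a l z b ∧
      Rel P W μ N δ₁ t' (W (Sum.inl t') ω) a' l z b ∧ ω ∈ N (Sum.inl t) a (Sum.inl t') a'} ≤
    be μ (Rel P W μ N δ₁) ρ t t' l z b + A ^ 2 * Real.exp (-(J * ρ)) + 2 * J * A ^ 3 * δ₁

/-- CORE: the abstract theorem. -/
def S_core : Prop := ∀ (A : ℕ) (α : ℝ), 1 ≤ A → 0 < α → ∃ g : ℕ, 1 ≤ g ∧ ∀ c : ℝ, 0 < c →
  ∃ (m J : ℕ) (δ : ℝ), 0 < δ ∧
  ∀ (Ω X : Type) [MeasurableSpace Ω] [Fintype X] (P : Measure Ω) [IsProbabilityMeasure P]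
    (S : Finset (Fin g × Fin g)) (W : Idx g m J → Ω → X) (μ : X → ℝ)
    (N : Idx g m J → Fin A → Idx g m J → Fin A → Set Ω),
    α * (g : ℝ) ^ 2 ≤ S.card →
    (∀ t x, MeasurableSet {ω | W t ω = x}) → (∀ t a t' a', MeasurableSet (N t a t' a')) →
    (∀ x : Idx g m J → X, P.real {ω | ∀ t, W t ω = x t} = ∏ t, μ (x t)) →
    (∀ x, 0 ≤ μ x) → ∑ x, μ x = 1 →
    (∀ t a t' a' l b, N t a t' a' ⊆ N t a (Sum.inr l) b ∪ N t' a' (Sum.inr l) b) →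
    (∀ s ∈ S, ∀ (i : Fin m) (l : Fin J) (x z : X),
      ∏ a : Fin A, ∏ b : Fin A, P.real (N (Sum.inl (s, i)) a (Sum.inr l) b ∩
        {ω | W (Sum.inl (s, i)) ω = x ∧ W (Sum.inr l) ω = z}) ≤
      P.real {ω | W (Sum.inl (s, i)) ω = x ∧ W (Sum.inr l) ω = z} ^ (A * A - 1) *
        P.real ({ω | ∀ a b, ω ∈ N (Sum.inl (s, i)) a (Sum.inr l) b} ∩
          {ω | W (Sum.inl (s, i)) ω = x ∧ W (Sum.inr l) ω = z})) →
    (∀ s ∈ S, ∀ (i : Fin m) (l : Fin J),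
      P.real {ω | ∀ a b, ω ∈ N (Sum.inl (s, i)) a (Sum.inr l) b} ≤ δ) →
    ∃ (a₀ a₁ b₀ b₁ : Fin g) (T : Fin m → X → Option (Fin A)), a₀ < a₁ ∧ b₀ < b₁ ∧
      P.real {ω | ∀ i, T i (W (Sum.inl ((a₀, b₀), i)) ω) = none} ≤ c ∧
      P.real {ω | ∃ s ∈ Cor a₀ a₁ b₀ b₁, ∃ s' ∈ Cor a₀ a₁ b₀ b₁, ∃ (i i' : Fin m) (a a' : Fin A),
        (s, i) ≠ (s', i') ∧ T i (W (Sum.inl (s, i)) ω) = some a ∧
        T i' (W (Sum.inl (s', i')) ω) = some a' ∧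
        ω ∈ N (Sum.inl (s, i)) a (Sum.inl (s', i')) a'} ≤ c

/-- The places of the targets and of the references. -/
def ps {d g m J : ℕ} (i j : Fin d) (lam : ℕ) (κ : Fin m → Fin d → ℤ) (l : Fin J → Fin d → ℤ) :
    Idx g m J → Fin d → ℤ
  | Sum.inl (s, q) => κ q + Pi.single i ((lam : ℤ) * (s.1 : ℕ)) + Pi.single j ((lam : ℤ) * (s.2 : ℕ))
  | Sum.inr q => l q

/-- POS: a dense set of places contains many translated copies of a dense part of the grid. -/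
def S_pos : Prop := ∀ (d : ℕ) (i j : Fin d) (β : ℝ) (g m J r : ℕ), i ≠ j → 0 < β → β ≤ 1 → 1 ≤ g →
  ∃ K₀ : ℕ, ∀ K : ℕ, K₀ ≤ K → ∀ I : Finset (Fin d → ℤ), (∀ k ∈ I, ∀ u, |k u| ≤ K) →
    β * (2 * K + 1 : ℕ) ^ d ≤ I.card →
    ∃ (S : Finset (Fin g × Fin g)) (κ : Fin m → Fin d → ℤ) (l : Fin J → Fin d → ℤ),
      β / 2 ^ (d + 1) * (g : ℝ) ^ 2 ≤ S.card ∧
      (∀ s ∈ S, ∀ q : Fin m, ps (J := J) i j (K / g) κ l (Sum.inl (s, q)) ∈ I) ∧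
      (∀ q : Fin J, l q ∈ I) ∧
      ∀ t t' : Idx g m J, t ≠ t' →
        ∃ u, 2 * (r : ℤ) < |ps i j (K / g) κ l t u - ps i j (K / g) κ l t' u|

end

end Pool.Agent.Y990.SH
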