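import Pool.Agent.Y990.SH.Stm

set_option autoImplicit false

open MeasureTheory

/-!
Project SH: assembly of the abstract theorem.
-/

namespace Pool.Agent.Y990.SH

noncomputable section

/-- Product formula for rectangles. -/
lemma box_prob {I Ω X : Type} [Fintype I] [MeasurableSpace Ω] [Fintype X] (P : Measure Ω)
    [IsProbabilityMeasure P] (W : I → Ω → X) (μ : X → ℝ)
    (hW : ∀ t x, MeasurableSet {ω | W t ω = x})
    (hp : ∀ x : I → X, P.real {ω | ∀ t, W t ω = x t} = ∏ t, μ (x t)) (B : I → Finset X) :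
    P.real {ω | ∀ t, W t ω ∈ B t} = ∏ t, ∑ x ∈ B t, μ x := by
  classical
  have e : {ω | ∀ t, W t ω ∈ B t} = ⋃ x ∈ Fintype.piFinset B, {ω | ∀ t, W t ω = x t} := by
    ext ω
    simp only [Set.mem_ofPred_eq, Set.mem_iUnion, Fintype.mem_piFinset, exists_prop]
    constructor
    · intro h
      exact ⟨fun t => W t ω, h, fun t => rfl⟩
    · rintro ⟨x, hx, h⟩ t
      rw [h t]
      exact hx t
  rw [e, measureReal_biUnion_finset, Finset.prod_univ_sum]
  · exact Finset.sum_congr rfl fun x _ => hp x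
  · intro x _ y _ hxy
    rw [Function.onFun, Set.disjoint_left]
    intro ω hx hy
    apply hxy
    funext t
    rw [← hx t, ← hy t]
  · intro x _
    have : {ω | ∀ t, W t ω = x t} = ⋂ t, {ω | W t ω = x t} := by
      ext ω
      simp
    rw [this]
    exact MeasurableSet.iInter fun t => hW t _

/-- The abstract theorem for given parameters. -/
def CoreAt (A g m J : ℕ) (α c δ : ℝ) : Prop :=
  ∀ (Ω X : Type) [MeasurableSpace Ω] [Fintype X] (P : Measure Ω) [IsProbabilityMeasure P]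
    (S : Finset (Fin g × Fin g)) (W : Idx g m J → Ω → X) (μ : X → ℝ)
    (N : Idx g m J → Fin A → Idx g m J → Fin A → Set Ω),
    α * (g : ℝ) ^ 2 ≤ S.card →
    (∀ t x, MeasurableSet {ω | W t ω = x}) → (∀ t a t' a', MeasurableSet (N t a t' a')) →
    (∀ x : Idx g m J → X, P.real {ω | ∀ t, W t ω = x t} = ∏ t, μ (x t)) →
    (∀ x, 0 ≤ μ x) → ∑ x, μ x = 1 →
    (∀ t a t' a' l b, N t a t' a' ⊆ N t a (Sum.inr l) b ∪ N t' a' (Sum.inr l) b) →
    (∀ s ∈ S, ∀ (i : Fin m) (l : Fin J) (x z : X),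
      ∏ a : Fin A, ∏ b : Fin A, P.real (N (Sum.inl (s, i)) a (Sum.inr l) b ∩
        {ω | W (Sum.inl (s, i)) ω = x ∧ W (Sum.inr l) ω = z}) ≤
      P.real {ω | W (Sum.inl (s, i)) ω = x ∧ W (Sum.inr l) ω = z} ^ (A * A - 1) *
        P.real ({ω | ∀ a b, ω ∈ N (Sum.inl (s, i)) a (Sum.inr l) b} ∩
          {ω | W (Sum.inl (s, i)) ω = x ∧ W (Sum.inr l) ω = z})) →
    (∀ s ∈ S, ∀ (i : Fin m) (l : Fin J),
      P.real {ω | ∀ a b, ω ∈ N (Sum.inl (s, i)) a (Sum.inr l) b} ≤ δ) →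
    ∃ (a₀ a₁ b₀ b₁ : Fin g) (T : Fin m → X → Option (Fin A)), a₀ < a₁ ∧ b₀ < b₁ ∧
      Cor a₀ a₁ b₀ b₁ ⊆ S ∧
      P.real {ω | ∀ i, T i (W (Sum.inl ((a₀, b₀), i)) ω) = none} ≤ c ∧
      P.real {ω | ∃ s ∈ Cor a₀ a₁ b₀ b₁, ∃ s' ∈ Cor a₀ a₁ b₀ b₁, ∃ (i i' : Fin m) (a a' : Fin A),
        (s, i) ≠ (s', i') ∧ T i (W (Sum.inl (s, i)) ω) = some a ∧
        T i' (W (Sum.inl (s', i')) ω) = some a' ∧
        ω ∈ N (Sum.inl (s, i)) a (Sum.inl (s', i')) a'} ≤ c

/-- CORE: the abstract theorem, with the corner inside `S`. -/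
def S_core' : Prop := ∀ (A : ℕ) (α : ℝ), 1 ≤ A → 0 < α → ∃ g : ℕ, 1 ≤ g ∧ ∀ c : ℝ, 0 < c →
  ∃ (m J : ℕ) (δ : ℝ), 0 < δ ∧ CoreAt A g m J α c δ

lemma card_Cor {g : ℕ} (a₀ a₁ b₀ b₁ : Fin g) : (Cor a₀ a₁ b₀ b₁).card ≤ 3 :=
  Finset.card_le_three

theorem core (hsel : S_sel) (hhalf : S_half) (hbadp : S_badp) : S_core' := by
  classical
  intro A α hA hα
  have hA1 : (1 : ℝ) ≤ A := by exact_mod_cast hA
  have hA0 : (0 : ℝ) < A := by linarith
  refine ⟨⌈8 * (A : ℝ) ^ 2 / α⌉₊ + 1, by omega, fun c hc => ?_⟩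
  set g : ℕ := ⌈8 * (A : ℝ) ^ 2 / α⌉₊ + 1 with hg
  have hg1 : (1 : ℝ) ≤ g := by
    rw [hg]
    push_cast
    have : (0 : ℝ) ≤ ⌈8 * (A : ℝ) ^ 2 / α⌉₊ := Nat.cast_nonneg _
    linarith
  have hgα : 8 * (A : ℝ) ^ 2 ≤ α * g := by
    have h1 : 8 * (A : ℝ) ^ 2 / α ≤ g := by
      refine (Nat.le_ceil _).trans ?_
      rw [hg]
      push_cast
      linarith
    rw [div_le_iff₀ hα] at h1
    linarith [mul_comm (g : ℝ) α]
  set η : ℝ := α / (8 * A ^ 2 * g ^ 4) with hη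
  have hη0 : 0 < η := by positivity
  -- the number of targets
  obtain ⟨m, hm1, hm⟩ : ∃ m : ℕ, 1 ≤ m ∧ Real.exp (-(m * η)) ≤ c := by
    have h1 : Filter.Tendsto (fun m : ℕ => Real.exp (-(m * η))) Filter.atTop (nhds 0) := by
      refine Real.tendsto_exp_neg_atTop_nhds_zero.comp ?_
      exact (tendsto_natCast_atTop_atTop).atTop_mul_const hη0
    obtain ⟨m, hm⟩ := ((h1.eventually (gt_mem_nhds hc)).and (Filter.eventually_ge_atTop 1)).exists
    exact ⟨m, hm.2, hm.1.le⟩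
  have hmr : (1 : ℝ) ≤ m := by exact_mod_cast hm1
  set ρ : ℝ := c * α / (3 * (72 * A ^ 4 * g ^ 4 * m ^ 2)) with hρ
  have hρ0 : 0 < ρ := by positivity
  obtain ⟨J, hJ1, hJ⟩ : ∃ J : ℕ, 1 ≤ J ∧ 9 * (m : ℝ) ^ 2 * (A ^ 2 * Real.exp (-(J * ρ))) ≤ c / 3 := by
    have h1 : Filter.Tendsto (fun J : ℕ => 9 * (m : ℝ) ^ 2 * (A ^ 2 * Real.exp (-(J * ρ))))
        Filter.atTop (nhds (9 * (m : ℝ) ^ 2 * (A ^ 2 * 0))) := by
      refine Filter.Tendsto.const_mul _ (Filter.Tendsto.const_mul _ ?_)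
      refine Real.tendsto_exp_neg_atTop_nhds_zero.comp ?_
      exact (tendsto_natCast_atTop_atTop).atTop_mul_const hρ0
    rw [mul_zero, mul_zero] at h1
    obtain ⟨J, hJ⟩ := ((h1.eventually (gt_mem_nhds (show (0 : ℝ) < c / 3 by linarith))).and
      (Filter.eventually_ge_atTop 1)).exists
    exact ⟨J, hJ.2, hJ.1.le⟩
  have hJr : (1 : ℝ) ≤ J := by exact_mod_cast hJ1
  set δ₁ : ℝ := c / (54 * m ^ 2 * J * A ^ 3) with hδ₁
  have hδ₁0 : 0 < δ₁ := by positivity
  refine ⟨m, J, δ₁ ^ (A * A) / 2, by positivity, ?_⟩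
  intro Ω X _ _ P _ S W μ N hS hW hN hp hμ0 hμ1 htr hfkg hyp
  obtain ⟨a₀, a₁, b₀, b₁, l, z, b, ha, hb, hC, hocc, hbe⟩ := hsel A g m J α ρ X μ S
    (Rel P W μ N δ₁) hA (by omega) hm1 hJ1 hα hgα hρ0 hμ0 hμ1 hS (fun s hs i l =>
      hhalf A g m J (δ₁ ^ (A * A) / 2) δ₁ Ω X P W μ N (s, i) l hA hδ₁0 le_rfl hW hN hp hμ0 hμ1
        (hfkg s hs i l) (hyp s hs i l))
  set Q : Fin m → X → Fin A → Prop := fun i x a =>
    ∀ s ∈ Cor a₀ a₁ b₀ b₁, Rel P W μ N δ₁ (s, i) x a l z b with hQ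
  set T : Fin m → X → Option (Fin A) := fun i x =>
    if h : ∃ a, Q i x a then some h.choose else none with hT
  have hT1 : ∀ i x, T i x = none ↔ ¬ ∃ a, Q i x a := by
    intro i x
    simp only [hT]
    by_cases h : ∃ a, Q i x a
    · rw [dif_pos h]
      simp [h]
    · rw [dif_neg h]
      simp [h]
  have hT2 : ∀ i x a, T i x = some a → Q i x a := by
    intro i x a hh
    simp only [hT] at hh
    by_cases h : ∃ a, Q i x a
    · rw [dif_pos h] at hh
      have h2 := h.choose_spec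
      rw [Option.some.inj hh] at h2
      exact h2
    · rw [dif_neg h] at hh
      exact absurd hh (by simp)
  refine ⟨a₀, a₁, b₀, b₁, T, ha, hb, hC, ?_, ?_⟩
  · -- some target is occupied
    set B : Idx g m J → Finset X := fun t => match t with
      | Sum.inl (s, i) => if s = (a₀, b₀) then Finset.univ.filter (fun x => T i x = none)
          else Finset.univ
      | Sum.inr _ => Finset.univ with hB
    have e : {ω | ∀ i, T i (W (Sum.inl ((a₀, b₀), i)) ω) = none} = {ω | ∀ t, W t ω ∈ B t} := by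
      ext ω
      simp only [Set.mem_ofPred_eq]
      constructor
      · rintro h (⟨s, i⟩ | q)
        · simp only [hB]
          by_cases hs : s = (a₀, b₀)
          · subst hs
            rw [if_pos rfl, Finset.mem_filter]
            exact ⟨Finset.mem_univ _, h i⟩
          · rw [if_neg hs]
            exact Finset.mem_univ _
        · exact Finset.mem_univ _
      · intro h i
        have := h (Sum.inl ((a₀, b₀), i))
        simp only [hB, if_true, Finset.mem_filter] at this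
        exact this.2
    rw [e, box_prob P W μ hW hp B, Fintype.prod_sum_type, Fintype.prod_prod_type]
    have h2 : ∏ q : Fin J, ∑ x ∈ B (Sum.inr q), μ x = 1 := by
      refine Finset.prod_eq_one fun q _ => ?_
      simp only [hB]
      exact hμ1
    rw [h2, mul_one]
    have h3 : ∏ s : Fin g × Fin g, ∏ i : Fin m, ∑ x ∈ B (Sum.inl (s, i)), μ x =
        ∏ i : Fin m, ∑ x ∈ B (Sum.inl ((a₀, b₀), i)), μ x := by
      refine Finset.prod_eq_single _ (fun s _ hs => ?_) (fun h => absurd (Finset.mem_univ _) h)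
      refine Finset.prod_eq_one fun i _ => ?_
      simp only [hB]
      rw [if_neg hs]
      exact hμ1
    rw [h3]
    have h4 : ∀ i : Fin m, ∑ x ∈ B (Sum.inl ((a₀, b₀), i)), μ x =
        1 - ∑ x, (if ∃ a, Q i x a then μ x else 0) := by
      intro i
      simp only [hB, if_true]
      rw [← hμ1, Finset.sum_filter, ← Finset.sum_sub_distrib]
      refine Finset.sum_congr rfl fun x _ => ?_
      by_cases h : ∃ a, Q i x a
      · rw [if_neg (fun hh => ((hT1 i x).1 hh) h), if_pos h, sub_self]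
      · rw [if_pos ((hT1 i x).2 h), if_neg h, sub_zero]
    calc ∏ i : Fin m, ∑ x ∈ B (Sum.inl ((a₀, b₀), i)), μ x
        ≤ ∏ i : Fin m, Real.exp (-(∑ x, (if ∃ a, Q i x a then μ x else 0))) := by
          refine Finset.prod_le_prod (fun i _ => Finset.sum_nonneg fun x _ => hμ0 x) fun i _ => ?_
          rw [h4 i]
          exact Real.one_sub_le_exp_neg _
      _ = Real.exp (-(∑ i : Fin m, ∑ x, (if ∃ a, Q i x a then μ x else 0))) := by
          rw [← Real.exp_sum, Finset.sum_neg_distrib]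
      _ ≤ Real.exp (-(m * η)) := by
          rw [Real.exp_le_exp, neg_le_neg_iff, mul_comm]
          exact hocc
      _ ≤ c := hm
  · -- all pairs are connected
    set E : Fin g × Fin g → Fin g × Fin g → Fin m → Fin m → Set Ω := fun s s' i i' =>
      {ω | ∃ a a', (s, i) ≠ (s', i') ∧ T i (W (Sum.inl (s, i)) ω) = some a ∧
        T i' (W (Sum.inl (s', i')) ω) = some a' ∧
        ω ∈ N (Sum.inl (s, i)) a (Sum.inl (s', i')) a'} with hE
    have hbe0 : ∀ t t', 0 ≤ be μ (Rel P W μ N δ₁) ρ t t' l z b := by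
      intro t t'
      unfold be
      refine Finset.sum_nonneg fun x _ => Finset.sum_nonneg fun y _ => Finset.sum_nonneg fun a _ =>
        Finset.sum_nonneg fun a' _ => ?_
      split_ifs
      · exact mul_nonneg (hμ0 x) (hμ0 y)
      · exact le_rfl
    have h1 : ∀ s ∈ Cor a₀ a₁ b₀ b₁, ∀ s' ∈ Cor a₀ a₁ b₀ b₁, ∀ i i', P.real (E s s' i i') ≤
        be μ (Rel P W μ N δ₁) ρ (s, i) (s', i') l z b + (A ^ 2 * Real.exp (-(J * ρ)) +
          2 * J * A ^ 3 * δ₁) := by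
      intro s hs s' hs' i i'
      by_cases h : (s, i) = (s', i')
      · have : E s s' i i' = ∅ := by
          ext ω
          simp only [hE, Set.mem_ofPred_eq, Set.mem_empty_iff_false, iff_false]
          rintro ⟨a, a', h2, -⟩
          exact h2 h
        rw [this, measureReal_empty]
        have := hbe0 (s, i) (s', i')
        positivity
      · rw [← add_assoc]
        refine le_trans (measureReal_mono ?_ (measure_ne_top _ _))
          (hbadp A g m J δ₁ ρ Ω X P W μ N (s, i) (s', i') l z b hA hδ₁0 hρ0 h hW hN hp hμ0 hμ1 htr)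
        rintro ω ⟨a, a', -, h2, h3, h4⟩
        exact ⟨a, a', hT2 i _ a h2 s hs, hT2 i' _ a' h3 s' hs', h4⟩
    have h2 : {ω | ∃ s ∈ Cor a₀ a₁ b₀ b₁, ∃ s' ∈ Cor a₀ a₁ b₀ b₁, ∃ (i i' : Fin m)
        (a a' : Fin A), (s, i) ≠ (s', i') ∧ T i (W (Sum.inl (s, i)) ω) = some a ∧
        T i' (W (Sum.inl (s', i')) ω) = some a' ∧
        ω ∈ N (Sum.inl (s, i)) a (Sum.inl (s', i')) a'} ⊆
        ⋃ s ∈ Cor a₀ a₁ b₀ b₁, ⋃ s' ∈ Cor a₀ a₁ b₀ b₁, ⋃ i ∈ (Finset.univ : Finset (Fin m)),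
          ⋃ i' ∈ (Finset.univ : Finset (Fin m)), E s s' i i' := by
      rintro ω ⟨s, hs, s', hs', i, i', a, a', h⟩
      simp only [Set.mem_iUnion]
      exact ⟨s, hs, s', hs', i, Finset.mem_univ _, i', Finset.mem_univ _, a, a', h⟩
    set q : ℝ := A ^ 2 * Real.exp (-(J * ρ)) + 2 * J * A ^ 3 * δ₁ with hq
    have hq0 : 0 ≤ q := by positivity
    calc P.real _ ≤ P.real (⋃ s ∈ Cor a₀ a₁ b₀ b₁, ⋃ s' ∈ Cor a₀ a₁ b₀ b₁,
          ⋃ i ∈ (Finset.univ : Finset (Fin m)), ⋃ i' ∈ (Finset.univ : Finset (Fin m)),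
          E s s' i i') := measureReal_mono h2 (measure_ne_top _ _)
      _ ≤ ∑ s ∈ Cor a₀ a₁ b₀ b₁, ∑ s' ∈ Cor a₀ a₁ b₀ b₁, ∑ i : Fin m, ∑ i' : Fin m,
          (be μ (Rel P W μ N δ₁) ρ (s, i) (s', i') l z b + q) := by
          refine (measureReal_biUnion_finset_le _ _).trans (Finset.sum_le_sum fun s hs => ?_)
          refine (measureReal_biUnion_finset_le _ _).trans (Finset.sum_le_sum fun s' hs' => ?_)
          refine (measureReal_biUnion_finset_le _ _).trans (Finset.sum_le_sum fun i _ => ?_)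
          refine (measureReal_biUnion_finset_le _ _).trans (Finset.sum_le_sum fun i' _ => ?_)
          exact h1 s hs s' hs' i i'
      _ = ∑ s ∈ Cor a₀ a₁ b₀ b₁, ∑ s' ∈ Cor a₀ a₁ b₀ b₁, ∑ i : Fin m, ∑ i' : Fin m,
          be μ (Rel P W μ N δ₁) ρ (s, i) (s', i') l z b +
          (Cor a₀ a₁ b₀ b₁).card * ((Cor a₀ a₁ b₀ b₁).card * (m * (m * q))) := by
          simp only [Finset.sum_add_distrib, Finset.sum_const, Finset.card_univ, Fintype.card_fin,
            nsmul_eq_mul]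
      _ ≤ c / 3 + 9 * m ^ 2 * q := by
          have h5 : ((Cor a₀ a₁ b₀ b₁).card : ℝ) ≤ 3 := by exact_mod_cast card_Cor a₀ a₁ b₀ b₁
          have h6 : (0 : ℝ) ≤ ((Cor a₀ a₁ b₀ b₁).card : ℝ) := Nat.cast_nonneg _
          have h7 : (0 : ℝ) ≤ m * (m * q) := by positivity
          have h8 : ((Cor a₀ a₁ b₀ b₁).card : ℝ) * ((Cor a₀ a₁ b₀ b₁).card * (m * (m * q))) ≤
              3 * (3 * (m * (m * q))) :=
            mul_le_mul h5 (mul_le_mul_of_nonneg_right h5 h7) (mul_nonneg h6 h7) (by norm_num)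
          have h9 : 72 * (A : ℝ) ^ 4 * g ^ 4 * m ^ 2 * ρ / α = c / 3 := by
            rw [hρ]
            field_simp
          rw [h9] at hbe
          nlinarith
      _ ≤ c := by
          have h5 : 9 * (m : ℝ) ^ 2 * (2 * J * A ^ 3 * δ₁) = c / 3 := by
            rw [hδ₁]
            field_simp
            norm_num
          have h6 : 9 * (m : ℝ) ^ 2 * q = 9 * (m : ℝ) ^ 2 * (A ^ 2 * Real.exp (-(J * ρ))) +
              9 * (m : ℝ) ^ 2 * (2 * J * A ^ 3 * δ₁) := by rw [hq]; ring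
          rw [h6, h5]
          linarith

end

end Pool.Agent.Y990.SH
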