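import Pool.Agent.W783.Perc.Defs

set_option autoImplicit false

open MeasureTheory

/-!
Project SH: statements about product measures.
-/

namespace Pool.Agent.Y990.SH

open Pool.Agent.W783.PC (pm DepOn Inc)

noncomputable section

/-- CFKG: decreasing events are positively correlated also conditionally on a cylinder. -/
def S_cfkg : Prop := ∀ (ι κ : Type) [Fintype κ] [Nonempty κ] (r : ι → unitInterval)
  (E F : Finset ι) (η : ι → Bool) (N : κ → Set (ι → Bool)),
  (∀ k, DepOn (N k) (F : Set ι)) → (∀ k, Inc (N k)ᶜ) →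
  ∏ k, (pm r).real (N k ∩ {ω | ∀ c ∈ E, ω c = η c}) ≤
    (pm r).real {ω | ∀ c ∈ E, ω c = η c} ^ (Fintype.card κ - 1) *
      (pm r).real ({ω | ∀ k, ω ∈ N k} ∩ {ω | ∀ c ∈ E, ω c = η c})

/-- IID: the configurations in disjoint translates of a finite set are independent. -/
def S_iid : Prop := ∀ (ι T : Type) [Fintype T] (p : unitInterval) (E : Finset ι) (τ : T → ι ≃ ι),
  (∀ t t', t ≠ t' → ∀ c ∈ E, ∀ c' ∈ E, τ t c ≠ τ t' c') → ∀ x : T → E → Bool,
  (pm (fun _ : ι => p)).real {ω | ∀ t, (fun c : E => ω (τ t c)) = x t} =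
    ∏ t, (pm (fun _ : ι => p)).real {ω | (fun c : E => ω c) = x t}

end

end Pool.Agent.Y990.SH
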