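import Pool.Agent.Y990.CB.MG
import Pool.Agent.Y990.SH.Stm
import Pool.Agent.Y990.SH.Stm1
import Pool.Agent.Y990.SH.Stm2

set_option autoImplicit false

open MeasureTheory Set

/-!
Project SH: local states, their representatives, and the good blocks.
-/

namespace Pool.Agent.Y990.SH

open Pool.Agent.W783.PC (pm DepOn Inc)
open Pool.Agent.Y990.CB

noncomputable section

variable {d : ℕ}

/-- The translations act. -/
def Fu (M : Mod d) : Prop := ∀ (a b : Z d) (c : M.ι), M.tr (sf a) (M.tr (sf b) c) = M.tr (sf (a + b)) c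

/-- The coordinates of the box. -/
def E0 (M : Mod d) (ρ : ℕ) : Finset M.ι := (In_fin M (Bo_finite (0 : Z d) ρ)).toFinset

lemma mem_E0 {M : Mod d} {ρ : ℕ} {c : M.ι} : c ∈ E0 M ρ ↔ c ∈ In M (Bo (0 : Z d) ρ) := by
  unfold E0
  rw [Set.Finite.mem_toFinset]

/-- The local state at `z`. -/
def Ws (M : Mod d) (ρ : ℕ) (z : Z d) (ω : M.ι → Bool) : E0 M ρ → Bool :=
  fun c => ω (M.tr (sf z) c)

open scoped Classical in
/-- Extension of a local state. -/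
def ex0 (M : Mod d) (ρ : ℕ) (x : E0 M ρ → Bool) : M.ι → Bool :=
  fun c => if h : c ∈ E0 M ρ then x ⟨c, h⟩ else false

lemma ex0_Ws (M : Mod d) (ρ : ℕ) (z : Z d) (ω : M.ι → Bool) :
    ∀ c ∈ In M (Bo (0 : Z d) ρ), ex0 M ρ (Ws M ρ z ω) c = ω (M.tr (sf z) c) := by
  intro c hc
  unfold ex0 Ws
  rw [dif_pos (mem_E0.2 hc)]

lemma tr_In {M : Mod d} {z w : Z d} {ρ : ℕ} {c : M.ι} (h : c ∈ In M (Bo z ρ)) :
    M.tr (sf w) c ∈ In M (Bo (z + w) ρ) := by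
  obtain ⟨x, hx, y, hy, h1, h2⟩ := h
  exact ⟨x + w, mem_Bo_add.2 hx, y + w, mem_Bo_add.2 hy, Nb_add.2 h1, (M.nd_tr (sf w) x y c).2 h2⟩

lemma Ws_congr {M : Mod d} {ρ : ℕ} {z : Z d} {ω ω' : M.ι → Bool}
    (h : ∀ c ∈ In M (Bo z ρ), ω c = ω' c) : Ws M ρ z ω = Ws M ρ z ω' := by
  funext c
  refine h _ ?_
  have := tr_In (w := z) (mem_E0.1 c.2)
  rwa [zero_add] at this

lemma Ws_shift {M : Mod d} (hF : Fu M) (ρ : ℕ) (z w : Z d) (ω : M.ι → Bool) :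
    Ws M ρ z (fun c => ω (M.tr (sf w) c)) = Ws M ρ (z + w) ω := by
  funext c
  show ω (M.tr (sf w) (M.tr (sf z) c)) = ω (M.tr (sf (z + w)) c)
  rw [hF, add_comm]

lemma reach_shift (M : Mod d) (ω : M.ι → Bool) (z w x y : Z d) (N : ℕ) :
    (G M (fun c => ω (M.tr (sf w) c)) (Bo z N)).Reachable x y ↔
      (G M ω (Bo (z + w) N)).Reachable (x + w) (y + w) := by
  rw [reach_sym M (sf w) (Nb_sf w) ω, sf_image_Bo]
  rfl

section

variable {A g m : ℕ}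

/-- The place of the type. -/
def pl (M : Mod d) (ρ : ℕ) (rp : (E0 M ρ → Bool) → Fin A → Z d) (ω : M.ι → Bool) (z : Z d)
    (a : Fin A) : Z d := rp (Ws M ρ z ω) a + z

/-- The good event of the block at `z`. -/
def Go (M : Mod d) (ρ N : ℕ) (rp : (E0 M ρ → Bool) → Fin A → Z d)
    (T : Fin m → (E0 M ρ → Bool) → Option (Fin A)) (zz : Tg g m → Z d)
    (C : Finset (Fin g × Fin g)) (s₀ : Fin g × Fin g) (z : Z d) : Set (M.ι → Bool) :=
  {ω | (∃ i, T i (Ws M ρ (zz (s₀, i) + z) ω) ≠ none) ∧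
    ¬ ∃ s ∈ C, ∃ s' ∈ C, ∃ (i i' : Fin m) (a a' : Fin A), (s, i) ≠ (s', i') ∧
      T i (Ws M ρ (zz (s, i) + z) ω) = some a ∧ T i' (Ws M ρ (zz (s', i') + z) ω) = some a' ∧
      ¬ (G M ω (Bo z N)).Reachable (pl M ρ rp ω (zz (s, i) + z) a)
        (pl M ρ rp ω (zz (s', i') + z) a')}

variable {M : Mod d} {ρ N : ℕ} {rp : (E0 M ρ → Bool) → Fin A → Z d}
  {T : Fin m → (E0 M ρ → Bool) → Option (Fin A)} {zz : Tg g m → Z d}
  {C : Finset (Fin g × Fin g)} {s₀ : Fin g × Fin g}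

lemma Go_dep (hz : ∀ s ∈ C, ∀ i, Bo (zz (s, i)) ρ ⊆ Bo 0 N) (h0 : s₀ ∈ C) (z : Z d) :
    DepOn (Go M ρ N rp T zz C s₀ z) (In M (Bo z N)) := by
  have key : ∀ ω ω' : M.ι → Bool, (∀ c ∈ In M (Bo z N), ω c = ω' c) → ∀ s ∈ C, ∀ i,
      Ws M ρ (zz (s, i) + z) ω = Ws M ρ (zz (s, i) + z) ω' := by
    intro ω ω' h s hs i
    refine Ws_congr fun c hc => h c (In_mono M ?_ hc)
    intro x hx
    have h1 : x - z ∈ Bo (zz (s, i)) ρ := by
      rw [← mem_Bo_add (w := z), sub_add_cancel]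
      exact hx
    have h2 := hz s hs i h1
    rw [← mem_Bo_add (w := z), sub_add_cancel, zero_add] at h2
    exact h2
  have imp : ∀ ω ω' : M.ι → Bool, (∀ c ∈ In M (Bo z N), ω c = ω' c) →
      ω ∈ Go M ρ N rp T zz C s₀ z → ω' ∈ Go M ρ N rp T zz C s₀ z := by
    rintro ω ω' h ⟨⟨i, hi⟩, h2⟩
    refine ⟨⟨i, ?_⟩, ?_⟩
    · rwa [← key ω ω' h s₀ h0 i]
    · rintro ⟨s, hs, s', hs', i, i', a, a', h3, h4, h5, h6⟩
      refine h2 ⟨s, hs, s', hs', i, i', a, a', h3, ?_, ?_, ?_⟩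
      · rwa [key ω ω' h s hs i]
      · rwa [key ω ω' h s' hs' i']
      · unfold pl at h6 ⊢
        rw [key ω ω' h s hs i, key ω ω' h s' hs' i', graph_congr h]
        exact h6
  intro ω ω' h
  exact ⟨imp ω ω' h, imp ω' ω fun c hc => (h c hc).symm⟩

lemma Go_meas (hz : ∀ s ∈ C, ∀ i, Bo (zz (s, i)) ρ ⊆ Bo 0 N) (h0 : s₀ ∈ C) (z : Z d) :
    MeasurableSet (Go M ρ N rp T zz C s₀ z) := by
  have h2 : DepOn (Go M ρ N rp T zz C s₀ z) ((In_fin M (Bo_finite z N)).toFinset : Set M.ι) := by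
    rw [Set.Finite.coe_toFinset]
    exact Go_dep hz h0 z
  exact Pool.Agent.W45.PC.s_depmeas _ _ _ h2

lemma Go_sym (hF : Fu M) (z w : Z d) (ω : M.ι → Bool) :
    (fun c => ω (M.tr (sf w) c)) ∈ Go M ρ N rp T zz C s₀ z ↔ ω ∈ Go M ρ N rp T zz C s₀ (z + w) := by
  have e : ∀ t, Ws M ρ (zz t + z) (fun c => ω (M.tr (sf w) c)) = Ws M ρ (zz t + (z + w)) ω := by
    intro t
    rw [Ws_shift hF, add_assoc]
  have e2 : ∀ t a, pl M ρ rp (fun c => ω (M.tr (sf w) c)) (zz t + z) a + w =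
      pl M ρ rp ω (zz t + (z + w)) a := by
    intro t a
    unfold pl
    rw [e, add_assoc, add_assoc, ← add_assoc (zz t)]
  unfold Go
  simp only [mem_ofPred_eq, e, reach_shift, e2]

lemma Go_shift (hF : Fu M) (p : unitInterval) (hz : ∀ s ∈ C, ∀ i, Bo (zz (s, i)) ρ ⊆ Bo 0 N)
    (h0 : s₀ ∈ C) (z : Z d) :
    (mu M p).real (Go M ρ N rp T zz C s₀ z)ᶜ = (mu M p).real (Go M ρ N rp T zz C s₀ 0)ᶜ := by
  rw [← mu_inv_real M p (sf z) (Go_meas hz h0 0).compl]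
  congr 1
  ext ω
  have := Go_sym (N := N) (rp := rp) (T := T) (zz := zz) (C := C) (s₀ := s₀) hF 0 z ω
  rw [zero_add] at this
  exact not_congr this.symm

/-- The vertex `x` represents the block at `z`. -/
def Hr (M : Mod d) (ρ : ℕ) (rp : (E0 M ρ → Bool) → Fin A → Z d)
    (T : Fin m → (E0 M ρ → Bool) → Option (Fin A)) (zz : Tg g m → Z d) (s₀ : Fin g × Fin g)
    (ω : M.ι → Bool) (z x : Z d) : Prop :=
  ∃ i a, T i (Ws M ρ (zz (s₀, i) + z) ω) = some a ∧ x = pl M ρ rp ω (zz (s₀, i) + z) a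

lemma Hr_exists {ω : M.ι → Bool} {z : Z d} (h : ω ∈ Go M ρ N rp T zz C s₀ z) :
    ∃ x, Hr M ρ rp T zz s₀ ω z x := by
  obtain ⟨⟨i, hi⟩, -⟩ := h
  obtain ⟨a, ha⟩ := Option.ne_none_iff_exists'.1 hi
  exact ⟨_, i, a, ha, rfl⟩

/-- One step: from the block `s₀` to the block `s₁` of the corner. -/
lemma Hr_step {ω : M.ι → Bool} {z x y : Z d} {s₁ : Fin g × Fin g} {v : Z d}
    (h : ω ∈ Go M ρ N rp T zz C s₀ z) (h0 : s₀ ∈ C) (h1 : s₁ ∈ C)
    (hv : ∀ i, zz (s₁, i) = zz (s₀, i) + v) (hx : Hr M ρ rp T zz s₀ ω z x)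
    (hy : Hr M ρ rp T zz s₀ ω (z + v) y) : (G M ω univ).Reachable x y := by
  obtain ⟨i, a, ha, rfl⟩ := hx
  obtain ⟨i', a', ha', rfl⟩ := hy
  have e : zz (s₀, i') + (z + v) = zz (s₁, i') + z := by
    rw [hv i', add_assoc, add_comm v z]
  rw [e] at ha' ⊢
  by_cases hne : (s₀, i) = (s₁, i')
  · have e3 : zz (s₁, i') = zz (s₀, i) := by rw [← hne]
    have e4 : i = i' := (Prod.ext_iff.1 hne).2
    subst e4
    rw [e3] at ha' ⊢
    rw [ha] at ha'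
    rw [Option.some.inj ha']
  · by_contra hc
    exact h.2 ⟨s₀, h0, s₁, h1, i, i', a, a', hne, ha, ha',
      fun hr => hc (reach_mono (subset_univ _) hr)⟩

lemma Hr_self {ω : M.ι → Bool} {z x y : Z d} (h : ω ∈ Go M ρ N rp T zz C s₀ z) (h0 : s₀ ∈ C)
    (hx : Hr M ρ rp T zz s₀ ω z x) (hy : Hr M ρ rp T zz s₀ ω z y) :
    (G M ω univ).Reachable x y := by
  have := Hr_step (v := 0) h h0 h0 (fun i => (add_zero _).symm) hx
    (by rw [add_zero]; exact hy)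
  exact this

/-- A chain of steps. -/
lemma Hr_chain {ω : M.ι → Bool} {z : Z d} {s₁ : Fin g × Fin g} {v : Z d} (h0 : s₀ ∈ C)
    (h1 : s₁ ∈ C) (hv : ∀ i, zz (s₁, i) = zz (s₀, i) + v) (K : ℕ)
    (h : ∀ l ≤ K, ω ∈ Go M ρ N rp T zz C s₀ (z + l • v)) {x y : Z d}
    (hx : Hr M ρ rp T zz s₀ ω z x) (hy : Hr M ρ rp T zz s₀ ω (z + K • v) y) :
    (G M ω univ).Reachable x y := by
  induction K generalizing y with
  | zero =>
    rw [zero_smul, add_zero] at hy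
    have := h 0 le_rfl
    rw [zero_smul, add_zero] at this
    exact Hr_self this h0 hx hy
  | succ K ih =>
    have h2 := h K (by omega)
    obtain ⟨u, hu⟩ := Hr_exists h2
    refine (ih (fun l hl => h l (by omega)) hu).trans (Hr_step h2 h0 h1 hv hu ?_)
    rw [succ_nsmul, ← add_assoc] at hy
    exact hy

end

end

end Pool.Agent.Y990.SH
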