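import Pool.Agent.Y990.SH.Geo

set_option autoImplicit false

open MeasureTheory Set

/-!
Project SH: if the blocks are good with large probability, percolation occurs also for all
parameters close to `p`.
-/

namespace Pool.Agent.Y990.SH

open Pool.Agent.W783.PC (pm DepOn Inc)
open Pool.Agent.Y990.CB

noncomputable section

variable {d : ℕ}

lemma mem_Bo_smul' {w u : Z d} {D s : ℕ} (hu : ∀ i, (s : ℤ) * |u i| ≤ D) {l : ℕ} (hl : l ≤ s) :
    w + l • u ∈ Bo w D := by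
  intro i
  have e : (w + l • u) i - w i = (l : ℤ) * u i := by
    rw [Pi.add_apply, Pi.smul_apply, nsmul_eq_mul]
    ring
  rw [e, abs_mul, Nat.abs_cast]
  refine le_trans ?_ (hu i)
  exact mul_le_mul_of_nonneg_right (by exact_mod_cast hl) (abs_nonneg _)

theorem blocks (hcrit : S_crit) {A g m : ℕ} (M : Mod d) (hF : Fu M) (p : unitInterval)
    (i j : Fin d) (hij : i ≠ j) (ρ N : ℕ) (rp : (E0 M ρ → Bool) → Fin A → Z d)
    (hrp : ∀ x a, rp x a ∈ Bo (0 : Z d) N)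
    (T : Fin m → (E0 M ρ → Bool) → Option (Fin A)) (zz : Tg g m → Z d) (B : ℕ) (hB : 1 ≤ B)
    (hg : 1 ≤ g) (hN : N ≤ 2 * g * B) (hzz : ∀ (s : Fin g × Fin g) (q : Fin m), zz (s, q) = zz ((⟨0, by omega⟩, ⟨0, by omega⟩), q) +
      Pi.single i ((B : ℤ) * (s.1 : ℕ)) + Pi.single j ((B : ℤ) * (s.2 : ℕ)))
    (a₀ a₁ b₀ b₁ : Fin g) (ha : a₀ < a₁) (hb : b₀ < b₁)
    (hz : ∀ s ∈ Cor a₀ a₁ b₀ b₁, ∀ i, Bo (zz (s, i)) ρ ⊆ Bo 0 N) (c : ℝ)
    (hc : (mu M p).real (Go M ρ N rp T zz (Cor a₀ a₁ b₀ b₁) (a₀, b₀) 0)ᶜ ≤ c)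
    (hc2 : 80 * (g : ℝ) ^ 2 * c ≤ 1 / 10 ^ 12) :
    ∃ δ : ℝ, 0 < δ ∧ ∀ p' : unitInterval, |(p' : ℝ) - p| ≤ δ → 0 < th M p' := by
  classical
  set C := Cor a₀ a₁ b₀ b₁ with hC
  have h0 : (a₀, b₀) ∈ C := by rw [hC]; unfold Cor; simp
  have h1 : (a₁, b₀) ∈ C := by rw [hC]; unfold Cor; simp
  have h2 : (a₀, b₁) ∈ C := by rw [hC]; unfold Cor; simp
  obtain ⟨s₁, hs₁⟩ : ∃ s₁ : ℕ, s₁ = (a₁ : ℕ) - a₀ := ⟨_, rfl⟩
  obtain ⟨s₂, hs₂⟩ : ∃ s₂ : ℕ, s₂ = (b₁ : ℕ) - b₀ := ⟨_, rfl⟩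
  have ha' : (a₀ : ℕ) < a₁ := ha
  have hb' : (b₀ : ℕ) < b₁ := hb
  have hs1 : 1 ≤ s₁ := by omega
  have hs2 : 1 ≤ s₂ := by omega
  have hs1g : s₁ + 1 ≤ g := by have := a₁.2; omega
  have hs2g : s₂ + 1 ≤ g := by have := b₁.2; omega
  set v₁ : Z d := Pi.single i ((B : ℤ) * s₁) with hv₁
  set v₂ : Z d := Pi.single j ((B : ℤ) * s₂) with hv₂
  set w : ℕ := B * s₁ * s₂ with hw
  have hw1 : 1 ≤ w := Nat.mul_pos (Nat.mul_pos (by omega) (by omega)) (by omega)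
  have hBw : B ≤ w := by
    rw [hw, mul_assoc]
    exact Nat.le_mul_of_pos_right B (Nat.mul_pos (by omega) (by omega))
  have e1 : s₂ • v₁ = Pi.single i (w : ℤ) := by
    rw [hv₁, ← Pi.single_smul, hw]
    congr 1
    rw [nsmul_eq_mul]
    push_cast
    ring
  have e2 : s₁ • v₂ = Pi.single j (w : ℤ) := by
    rw [hv₂, ← Pi.single_smul, hw]
    congr 1
    rw [nsmul_eq_mul]
    push_cast
    ring
  have hstep1 : ∀ q, zz ((a₁, b₀), q) = zz ((a₀, b₀), q) + v₁ := by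
    intro q
    rw [hzz (a₁, b₀), hzz (a₀, b₀), hv₁]
    have : (B : ℤ) * ((a₁ : ℕ) : ℤ) = (B : ℤ) * ((a₀ : ℕ) : ℤ) + (B : ℤ) * s₁ := by
      rw [hs₁, Nat.cast_sub ha'.le]; ring
    simp only
    rw [this, Pi.single_add]
    abel
  have hstep2 : ∀ q, zz ((a₀, b₁), q) = zz ((a₀, b₀), q) + v₂ := by
    intro q
    rw [hzz (a₀, b₁), hzz (a₀, b₀), hv₂]
    have : (B : ℤ) * ((b₁ : ℕ) : ℤ) = (B : ℤ) * ((b₀ : ℕ) : ℤ) + (B : ℤ) * s₂ := by
      rw [hs₂, Nat.cast_sub hb'.le]; ring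
    simp only
    rw [this, Pi.single_add]
    abel
  have hd1 : ∀ u, (s₂ : ℤ) * |v₁ u| ≤ w := by
    intro u
    by_cases hu : u = i
    · subst hu
      rw [hv₁, Pi.single_eq_same, abs_of_nonneg (by positivity), hw]
      push_cast
      linarith [mul_comm (s₂ : ℤ) ((B : ℤ) * s₁)]
    · rw [hv₁, Pi.single_eq_of_ne hu, abs_zero, mul_zero]
      positivity
  have hd2 : ∀ u, (s₁ : ℤ) * |v₂ u| ≤ w := by
    intro u
    by_cases hu : u = j
    · subst hu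
      rw [hv₂, Pi.single_eq_same, abs_of_nonneg (by positivity), hw]
      push_cast
      linarith [mul_comm (s₁ : ℤ) ((B : ℤ) * s₂), mul_comm (s₁ : ℤ) (s₂ : ℤ),
        show (B : ℤ) * s₁ * s₂ = s₁ * (B * s₂) by ring]
    · rw [hv₂, Pi.single_eq_of_ne hu, abs_zero, mul_zero]
      positivity
  set Gs : Z d → Set (M.ι → Bool) := fun z =>
    {ω | (∀ l ≤ s₂, ω ∈ Go M ρ N rp T zz C (a₀, b₀) (z + l • v₁)) ∧
      ∀ l ≤ s₁, ω ∈ Go M ρ N rp T zz C (a₀, b₀) (z + l • v₂)} with hGs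
  have hg1 : (1 : ℝ) ≤ g := by exact_mod_cast hg
  have hc0 : 0 ≤ c := le_trans measureReal_nonneg hc
  refine hcrit d M p i j w (2 * g + 1) (8 * N) (2 * g * c)
    (fun ω z x => Hr M ρ rp T zz (a₀, b₀) ω z x) Gs hij hw1 (by omega) ?_ ?_ ?_ ?_ ?_ ?_
  · -- dependence
    intro z
    have key : ∀ (v : Z d) (s : ℕ), (∀ u, (s : ℤ) * |v u| ≤ w) → ∀ l ≤ s,
        Bo (z + l • v) N ⊆ Bo z ((2 * g + 1) * w) := by
      intro v s hv l hl
      refine Bo_sub (mem_Bo_smul' hv hl) ?_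
      have h5 : 2 * g * B ≤ 2 * g * w := Nat.mul_le_mul_left _ hBw
      have h6 : (2 * g + 1) * w = 2 * g * w + w := by ring
      omega
    intro ω ω' h
    have q1 : ∀ l ≤ s₂, (ω ∈ Go M ρ N rp T zz C (a₀, b₀) (z + l • v₁) ↔
        ω' ∈ Go M ρ N rp T zz C (a₀, b₀) (z + l • v₁)) := fun l hl =>
      Go_dep hz h0 _ ω ω' fun c hc => h c (In_mono M (key v₁ s₂ hd1 l hl) hc)
    have q2 : ∀ l ≤ s₁, (ω ∈ Go M ρ N rp T zz C (a₀, b₀) (z + l • v₂) ↔
        ω' ∈ Go M ρ N rp T zz C (a₀, b₀) (z + l • v₂)) := fun l hl =>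
      Go_dep hz h0 _ ω ω' fun c hc => h c (In_mono M (key v₂ s₁ hd2 l hl) hc)
    show (_ ∧ _) ↔ (_ ∧ _)
    exact and_congr (forall₂_congr q1) (forall₂_congr q2)
  · -- probability
    intro z
    have e : (Gs z)ᶜ ⊆ (⋃ l ∈ Finset.range (s₂ + 1), (Go M ρ N rp T zz C (a₀, b₀)
        (z + l • v₁))ᶜ) ∪ ⋃ l ∈ Finset.range (s₁ + 1), (Go M ρ N rp T zz C (a₀, b₀)
        (z + l • v₂))ᶜ := by
      intro ω hω
      by_contra hcon
      apply hω
      simp only [mem_union, mem_iUnion, Finset.mem_range, exists_prop, mem_compl_iff, not_or,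
        not_exists, not_and, not_not] at hcon
      exact ⟨fun l hl => hcon.1 l (by omega), fun l hl => hcon.2 l (by omega)⟩
    have q : ∀ y, (mu M p).real (Go M ρ N rp T zz C (a₀, b₀) y)ᶜ ≤ c := fun y =>
      (Go_shift hF p hz h0 y).le.trans hc
    refine (measureReal_mono e (measure_ne_top _ _)).trans ((measureReal_union_le _ _).trans ?_)
    have q1 : (mu M p).real (⋃ l ∈ Finset.range (s₂ + 1), (Go M ρ N rp T zz C (a₀, b₀)
        (z + l • v₁))ᶜ) ≤ g * c := by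
      refine (measureReal_biUnion_finset_le _ _).trans ?_
      refine (Finset.sum_le_sum fun l _ => q _).trans ?_
      rw [Finset.sum_const, Finset.card_range, nsmul_eq_mul]
      exact mul_le_mul_of_nonneg_right (by exact_mod_cast hs2g) hc0
    have q2 : (mu M p).real (⋃ l ∈ Finset.range (s₁ + 1), (Go M ρ N rp T zz C (a₀, b₀)
        (z + l • v₂))ᶜ) ≤ g * c := by
      refine (measureReal_biUnion_finset_le _ _).trans ?_
      refine (Finset.sum_le_sum fun l _ => q _).trans ?_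
      rw [Finset.sum_const, Finset.card_range, nsmul_eq_mul]
      exact mul_le_mul_of_nonneg_right (by exact_mod_cast hs1g) hc0
    linarith
  · -- arithmetic
    push_cast
    have : 2 * (3 * (2 * (g : ℝ) + 1) + 1) * (2 * g * c) ≤ 40 * g ^ 2 * c := by
      have h5 : 2 * (3 * (2 * (g : ℝ) + 1) + 1) * (2 * g) ≤ 40 * g ^ 2 := by nlinarith
      have := mul_le_mul_of_nonneg_right h5 hc0
      linarith
    linarith
  · -- places
    rintro ω z x ⟨q, a, -, rfl⟩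
    unfold pl
    intro u
    have h5 := abs_le.1 (hrp (Ws M ρ (zz ((a₀, b₀), q) + z) ω) a u)
    have h6 := abs_le.1 (hz _ h0 q (self_mem_Bo _ _) u)
    simp only [Pi.add_apply, Pi.zero_apply, sub_zero] at h5 h6 ⊢
    push_cast at h5 h6 ⊢
    rw [abs_le]
    constructor <;> linarith [h5.1, h5.2, h6.1, h6.2]
  · intro ω z hω
    have := hω.1 0 (Nat.zero_le _)
    rw [zero_smul, add_zero] at this
    exact Hr_exists this
  · rintro ω z z' x y hω hz' hx hy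
    rcases hz' with rfl | rfl | rfl
    · have := hω.1 0 (Nat.zero_le _)
      rw [zero_smul, add_zero] at this
      exact Hr_self this h0 hx hy
    · refine Hr_chain (v := v₁) h0 h1 hstep1 s₂ hω.1 hx ?_
      rw [e1]
      exact hy
    · refine Hr_chain (v := v₂) h0 h2 hstep2 s₁ hω.2 hx ?_
      rw [e2]
      exact hy

end

end Pool.Agent.Y990.SH
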