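import Pool.Agent.Y990.SH.Geo
import Pool.Agent.Y990.SH.Core

set_option autoImplicit false

open MeasureTheory Set

/-!
Project SH: application of the abstract theorem to percolation.
-/

namespace Pool.Agent.Y990.SH

open Pool.Agent.W783.PC (pm DepOn Inc)
open Pool.Agent.Y990.CB

noncomputable section

variable {d : ℕ}

/-- Square root trick. -/
lemma sqr (hcfkg : S_cfkg) {ι κ : Type} [Fintype κ] [Nonempty κ] (r : ι → unitInterval)
    (F : Finset ι) (N : κ → Set (ι → Bool)) (hN : ∀ k, DepOn (N k) (F : Set ι))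
    (hI : ∀ k, Inc (N k)ᶜ) {δ : ℝ} (hδ : 0 ≤ δ)
    (h : (pm r).real {ω | ∀ k, ω ∈ N k} ≤ δ ^ Fintype.card κ) : ∃ k, (pm r).real (N k) ≤ δ := by
  by_contra hcon
  push Not at hcon
  have h1 := hcfkg ι κ r ∅ F (fun _ => false) N hN hI
  have e : {ω : ι → Bool | ∀ c ∈ (∅ : Finset ι), ω c = false} = univ := by
    ext ω
    simp
  simp only [e, inter_univ, probReal_univ, one_pow, one_mul] at h1
  have h2 : δ ^ Fintype.card κ < ∏ k, (pm r).real (N k) := by
    have h3 : ∏ _k : κ, δ = δ ^ Fintype.card κ := by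
      rw [Finset.prod_const, Finset.card_univ]
    rw [← h3]
    by_cases h0 : δ = 0
    · subst h0
      rw [h3, zero_pow Fintype.card_ne_zero]
      exact Finset.prod_pos fun k _ => hcon k
    · exact Finset.prod_lt_prod_of_nonempty (fun k _ => lt_of_le_of_ne hδ (Ne.symm h0))
        (fun k _ => hcon k) Finset.univ_nonempty
  linarith

section

variable {A g m J : ℕ} (M : Mod d) (p : unitInterval) (ρ N : ℕ)
  (rp : (E0 M ρ → Bool) → Fin A → Z d) (zz : Idx g m J → Z d)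

/-- The event that two types are not connected. -/
def Nn (t : Idx g m J) (a : Fin A) (t' : Idx g m J) (a' : Fin A) : Set (M.ι → Bool) :=
  {ω | ¬ (G M ω (Bo 0 N)).Reachable (pl M ρ rp ω (zz t) a) (pl M ρ rp ω (zz t') a')}

/-- The law of the local states. -/
def lw (x : E0 M ρ → Bool) : ℝ := (mu M p).real {ω | (fun c : E0 M ρ => ω c) = x}

lemma Ws_meas (z : Z d) (x : E0 M ρ → Bool) : MeasurableSet {ω | Ws M ρ z ω = x} := by
  have h2 : DepOn {ω | Ws M ρ z ω = x} ((In_fin M (Bo_finite z ρ)).toFinset : Set M.ι) := by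
    rw [Set.Finite.coe_toFinset]
    intro ω ω' h
    simp only [mem_ofPred_eq]
    rw [Ws_congr h]
  exact Pool.Agent.W45.PC.s_depmeas _ _ _ h2

lemma Nn_meas (t : Idx g m J) (a : Fin A) (t' : Idx g m J) (a' : Fin A) :
    MeasurableSet (Nn M ρ N rp zz t a t' a') := by
  classical
  have e : Nn M ρ N rp zz t a t' a' = ⋃ x : E0 M ρ → Bool, ⋃ y : E0 M ρ → Bool,
      ({ω | Ws M ρ (zz t) ω = x} ∩ {ω | Ws M ρ (zz t') ω = y}) ∩
        (Cn M (Bo 0 N) (rp x a + zz t) (rp y a' + zz t'))ᶜ := by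
    ext ω
    simp only [mem_iUnion, mem_inter_iff, mem_ofPred_eq, mem_compl_iff]
    constructor
    · intro h
      exact ⟨_, _, ⟨rfl, rfl⟩, h⟩
    · rintro ⟨x, y, ⟨hx, hy⟩, h⟩
      show ¬ (G M ω (Bo 0 N)).Reachable (rp (Ws M ρ (zz t) ω) a + zz t)
        (rp (Ws M ρ (zz t') ω) a' + zz t')
      rw [hx, hy]
      exact h
  rw [e]
  exact MeasurableSet.iUnion fun x => MeasurableSet.iUnion fun y =>
    ((Ws_meas M ρ _ x).inter (Ws_meas M ρ _ y)).inter (Cn_meas M _ _ _).compl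

lemma tr_disj (hd : ∀ t t', t ≠ t' → Disjoint (Bo (zz t) ρ) (Bo (zz t') ρ)) (t t' : Idx g m J)
    (h : t ≠ t') : ∀ c ∈ E0 M ρ, ∀ c' ∈ E0 M ρ, M.tr (sf (zz t)) c ≠ M.tr (sf (zz t')) c' := by
  intro c hc c' hc' heq
  have h1 := tr_In (w := zz t) (mem_E0.1 hc)
  have h2 := tr_In (w := zz t') (mem_E0.1 hc')
  rw [zero_add] at h1 h2
  have h3 := In_disj M (hd t t' h)
  rw [Set.disjoint_left] at h3
  rw [heq] at h1
  exact h3 h1 h2

open scoped Classical in
lemma lw_sum : ∑ x, lw M p ρ x = 1 := by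
  have h := measureReal_biUnion_finset (μ := mu M p) (s := (Finset.univ : Finset (E0 M ρ → Bool)))
    (f := fun x => {ω : M.ι → Bool | (fun c : E0 M ρ => ω c) = x}) ?_ ?_
  · unfold lw
    rw [← h]
    have e : (⋃ x ∈ (Finset.univ : Finset (E0 M ρ → Bool)),
        {ω : M.ι → Bool | (fun c : E0 M ρ => ω c) = x}) = univ := by
      ext ω
      simp
    rw [e, probReal_univ]
  · intro x _ y _ hxy
    rw [Function.onFun, Set.disjoint_left]
    intro ω hx hy
    exact hxy (hx.symm.trans hy)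
  · intro x _
    have h2 : DepOn {ω : M.ι → Bool | (fun c : E0 M ρ => ω c) = x} (E0 M ρ : Set M.ι) := by
      intro ω ω' h
      simp only [mem_ofPred_eq]
      have : (fun c : E0 M ρ => ω c) = fun c : E0 M ρ => ω' c := by
        funext c
        exact h c c.2
      rw [this]
    exact Pool.Agent.W45.PC.s_depmeas _ _ _ h2

/-- Conditional positive correlation for the local states. -/
lemma fkg_geo (hcfkg : S_cfkg) (hA : 1 ≤ A)
    (hd : ∀ t t', t ≠ t' → Disjoint (Bo (zz t) ρ) (Bo (zz t') ρ)) (t t' : Idx g m J) (h : t ≠ t')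
    (x z : E0 M ρ → Bool) :
    ∏ a : Fin A, ∏ b : Fin A, (mu M p).real (Nn M ρ N rp zz t a t' b ∩
        {ω | Ws M ρ (zz t) ω = x ∧ Ws M ρ (zz t') ω = z}) ≤
      (mu M p).real {ω | Ws M ρ (zz t) ω = x ∧ Ws M ρ (zz t') ω = z} ^ (A * A - 1) *
        (mu M p).real ({ω | ∀ a b, ω ∈ Nn M ρ N rp zz t a t' b} ∩
          {ω | Ws M ρ (zz t) ω = x ∧ Ws M ρ (zz t') ω = z}) := by
  classical
  have : Nonempty (Fin A) := ⟨⟨0, by omega⟩⟩
  set E₁ := (E0 M ρ).map (M.tr (sf (zz t))).toEmbedding with hE₁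
  set E₂ := (E0 M ρ).map (M.tr (sf (zz t'))).toEmbedding with hE₂
  set η : M.ι → Bool := fun c => if c ∈ E₁ then ex0 M ρ x ((M.tr (sf (zz t))).symm c)
    else ex0 M ρ z ((M.tr (sf (zz t'))).symm c) with hη
  have hdis := tr_disj M ρ zz hd t t' h
  have e : {ω : M.ι → Bool | Ws M ρ (zz t) ω = x ∧ Ws M ρ (zz t') ω = z} =
      {ω | ∀ c ∈ E₁ ∪ E₂, ω c = η c} := by
    ext ω
    simp only [mem_ofPred_eq]
    constructor
    · rintro ⟨h1, h2⟩ c hc
      by_cases hc1 : c ∈ E₁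
      · rw [hη]
        simp only [if_pos hc1]
        obtain ⟨c0, hc0, rfl⟩ := Finset.mem_map.1 hc1
        simp only [Equiv.toEmbedding_apply, Equiv.symm_apply_apply]
        unfold ex0
        rw [dif_pos hc0, ← h1]
        rfl
      · rw [hη]
        simp only [if_neg hc1]
        have hc2 : c ∈ E₂ := (Finset.mem_union.1 hc).resolve_left hc1
        obtain ⟨c0, hc0, rfl⟩ := Finset.mem_map.1 hc2
        simp only [Equiv.toEmbedding_apply, Equiv.symm_apply_apply]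
        unfold ex0
        rw [dif_pos hc0, ← h2]
        rfl
    · intro h1
      constructor
      · funext c
        have hc1 : M.tr (sf (zz t)) c ∈ E₁ := Finset.mem_map.2 ⟨c, c.2, rfl⟩
        have h2 := h1 _ (Finset.mem_union_left _ hc1)
        rw [hη] at h2
        simp only [if_pos hc1, Equiv.symm_apply_apply] at h2
        unfold ex0 at h2
        rw [dif_pos c.2] at h2
        exact h2
      · funext c
        have hc2 : M.tr (sf (zz t')) c ∈ E₂ := Finset.mem_map.2 ⟨c, c.2, rfl⟩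
        have hc1 : M.tr (sf (zz t')) c ∉ E₁ := by
          intro hc
          obtain ⟨c0, hc0, hc0'⟩ := Finset.mem_map.1 hc
          exact hdis c0 hc0 c c.2 hc0'
        have h2 := h1 _ (Finset.mem_union_right _ hc2)
        rw [hη] at h2
        simp only [if_neg hc1, Equiv.symm_apply_apply] at h2
        unfold ex0 at h2
        rw [dif_pos c.2] at h2
        exact h2
  set N' : Fin A × Fin A → Set (M.ι → Bool) := fun k =>
    (Cn M (Bo 0 N) (rp x k.1 + zz t) (rp z k.2 + zz t'))ᶜ with hN'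
  have h1 := hcfkg M.ι (Fin A × Fin A) (fun _ => p) (E₁ ∪ E₂)
    ((In_fin M (Bo_finite (0 : Z d) N)).toFinset) η N' ?_ ?_
  · have e1 : ∀ a b, Nn M ρ N rp zz t a t' b ∩
        {ω | Ws M ρ (zz t) ω = x ∧ Ws M ρ (zz t') ω = z} = N' (a, b) ∩
        {ω | ∀ c ∈ E₁ ∪ E₂, ω c = η c} := by
      intro a b
      rw [← e]
      ext ω
      simp only [mem_inter_iff, mem_ofPred_eq, Nn, hN', mem_compl_iff]
      refine and_congr_left fun hω => ?_
      unfold pl
      rw [hω.1, hω.2]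
      rfl
    have e2 : {ω | ∀ a b, ω ∈ Nn M ρ N rp zz t a t' b} ∩
        {ω | Ws M ρ (zz t) ω = x ∧ Ws M ρ (zz t') ω = z} = {ω | ∀ k, ω ∈ N' k} ∩
        {ω | ∀ c ∈ E₁ ∪ E₂, ω c = η c} := by
      ext ω
      constructor
      · rintro ⟨h2, h3⟩
        refine ⟨fun k => ?_, ?_⟩
        · have : ω ∈ N' (k.1, k.2) ∩ {ω | ∀ c ∈ E₁ ∪ E₂, ω c = η c} := by
            rw [← e1]
            exact ⟨h2 k.1 k.2, h3⟩
          exact this.1
        · rw [← e]
          exact h3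
      · rintro ⟨h2, h3⟩
        refine ⟨fun a b => ?_, ?_⟩
        · have : ω ∈ Nn M ρ N rp zz t a t' b ∩
              {ω | Ws M ρ (zz t) ω = x ∧ Ws M ρ (zz t') ω = z} := by
            rw [e1]
            exact ⟨h2 (a, b), h3⟩
          exact this.1
        · rw [e]
          exact h3
    rw [e2]
    simp only [e1]
    rw [e]
    have h2 : Fintype.card (Fin A × Fin A) = A * A := by
      rw [Fintype.card_prod, Fintype.card_fin]
    rw [h2, Fintype.prod_prod_type] at h1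
    exact h1
  · intro k ω ω' hh
    rw [Set.Finite.coe_toFinset] at hh
    exact not_congr (Cn_dep M (Bo 0 N) _ _ ω ω' hh)
  · intro k
    rw [hN']
    simp only [compl_compl]
    exact Cn_inc M _ _ _

/-- Application of the abstract theorem. -/
theorem core_geo (hcfkg : S_cfkg) (hiid : S_iid) (hA : 1 ≤ A) {α c δ : ℝ}
    (hcore : CoreAt A g m J α c δ)
    (hd : ∀ t t', t ≠ t' → Disjoint (Bo (zz t) ρ) (Bo (zz t') ρ)) (S : Finset (Fin g × Fin g))
    (hS : α * (g : ℝ) ^ 2 ≤ S.card)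
    (hpair : ∀ s ∈ S, ∀ (i : Fin m) (l : Fin J),
      (mu M p).real {ω | ∀ a b, ω ∈ Nn M ρ N rp zz (Sum.inl (s, i)) a (Sum.inr l) b} ≤ δ) :
    ∃ (a₀ a₁ b₀ b₁ : Fin g) (T : Fin m → (E0 M ρ → Bool) → Option (Fin A)), a₀ < a₁ ∧ b₀ < b₁ ∧
      Cor a₀ a₁ b₀ b₁ ⊆ S ∧
      (mu M p).real (Go M ρ N rp T (fun t => zz (Sum.inl t)) (Cor a₀ a₁ b₀ b₁) (a₀, b₀) 0)ᶜ ≤
        2 * c := by
  classical
  have htr : ∀ (t : Idx g m J) (a : Fin A) (t' : Idx g m J) (a' : Fin A) (l : Fin J) (b : Fin A),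
      Nn M ρ N rp zz t a t' a' ⊆ Nn M ρ N rp zz t a (Sum.inr l) b ∪
        Nn M ρ N rp zz t' a' (Sum.inr l) b := by
    intro t a t' a' l b ω hω
    by_contra hcon
    simp only [mem_union, not_or, Nn, mem_ofPred_eq, not_not] at hcon
    exact hω (hcon.1.trans hcon.2.symm)
  obtain ⟨a₀, a₁, b₀, b₁, T, ha, hb, hC, h1, h2⟩ := hcore (M.ι → Bool) (E0 M ρ → Bool) (mu M p) S
    (fun t ω => Ws M ρ (zz t) ω) (lw M p ρ) (Nn M ρ N rp zz) hS
    (fun t x => Ws_meas M ρ (zz t) x) (Nn_meas M ρ N rp zz)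
    (fun x => hiid M.ι (Idx g m J) p (E0 M ρ) (fun t => M.tr (sf (zz t)))
      (tr_disj M ρ zz hd) x)
    (fun x => measureReal_nonneg) (lw_sum M p ρ) htr
    (fun s _ i l x z => fkg_geo M p ρ N rp zz hcfkg hA hd _ _ (by simp) x z) hpair
  · refine ⟨a₀, a₁, b₀, b₁, T, ha, hb, hC, ?_⟩
    have e : (Go M ρ N rp T (fun t => zz (Sum.inl t)) (Cor a₀ a₁ b₀ b₁) (a₀, b₀) 0)ᶜ ⊆
        {ω | ∀ i, T i (Ws M ρ (zz (Sum.inl ((a₀, b₀), i))) ω) = none} ∪
        {ω | ∃ s ∈ Cor a₀ a₁ b₀ b₁, ∃ s' ∈ Cor a₀ a₁ b₀ b₁, ∃ (i i' : Fin m) (a a' : Fin A),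
        (s, i) ≠ (s', i') ∧ T i (Ws M ρ (zz (Sum.inl (s, i))) ω) = some a ∧
        T i' (Ws M ρ (zz (Sum.inl (s', i'))) ω) = some a' ∧
        ω ∈ Nn M ρ N rp zz (Sum.inl (s, i)) a (Sum.inl (s', i')) a'} := by
      intro ω hω
      by_contra hcon
      simp only [mem_union, not_or] at hcon
      apply hω
      refine ⟨?_, ?_⟩
      · have h3 := hcon.1
        simp only [mem_ofPred_eq, not_forall] at h3
        obtain ⟨i, hi⟩ := h3
        exact ⟨i, by rw [add_zero]; exact hi⟩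
      · have h3 := hcon.2
        simp only [add_zero]
        exact h3
    refine (measureReal_mono e (measure_ne_top _ _)).trans ((measureReal_union_le _ _).trans ?_)
    linarith

end

end

end Pool.Agent.Y990.SH
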