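import Pool.Agent.Y990.SH.Geo3

set_option autoImplicit false

open MeasureTheory Set

/-!
Project SH: the hypothesis on pairs of types.
-/

namespace Pool.Agent.Y990.SH

open Pool.Agent.W783.PC (pm DepOn Inc)
open Pool.Agent.Y990.CB

noncomputable section

variable {d : ℕ}

/-- Some cluster of the box of radius `N` has a large part of all cells with index in `I`. -/
def AI (M : Mod d) (n N : ℕ) (ε : ℝ) (I : Finset (Z d)) : Set (M.ι → Bool) :=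
  {ω | ∃ x, ∀ k ∈ I, ε / 2 * ((2 * n + 1 : ℕ) : ℝ) ^ d ≤
    ((cl M ω (Bo 0 N) x ∩ Bo ((2 * n + 1 : ℤ) • k) n).ncard : ℝ)}

lemma AI_dep (M : Mod d) (n N : ℕ) (ε : ℝ) (I : Finset (Z d)) :
    DepOn (AI M n N ε I) (In M (Bo 0 N)) := by
  intro ω ω' h
  unfold AI
  simp only [mem_ofPred_eq]
  refine exists_congr fun x => ?_
  rw [cl_dep x h]

lemma AI_inc (M : Mod d) (n N : ℕ) (ε : ℝ) (I : Finset (Z d)) : Inc (AI M n N ε I) := by
  rintro ω ω' h ⟨x, hx⟩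
  refine ⟨x, fun k hk => (hx k hk).trans ?_⟩
  have h1 : (cl M ω (Bo 0 N) x ∩ Bo ((2 * n + 1 : ℤ) • k) n).ncard ≤
      (cl M ω' (Bo 0 N) x ∩ Bo ((2 * n + 1 : ℤ) • k) n).ncard :=
    Set.ncard_le_ncard (inter_subset_inter_left _ (cl_mono h (Subset.refl _) x))
      ((Bo_finite _ _).subset inter_subset_right)
  exact_mod_cast h1

/-- If a cluster is large in the cell around `z` and the cell is not dusty, the cluster contains
one of the representatives. -/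
lemma hit {A : ℕ} (M : Mod d) {n ρ N : ℕ} {ε : ℝ} (hε : 0 < ε)
    {rep : (M.ι → Bool) → Fin A → Z d}
    (h1 : ∀ ω ω' : M.ι → Bool, (∀ c ∈ In M (Bo 0 ρ), ω c = ω' c) → rep ω = rep ω')
    (h3 : ∀ ω, ∀ y ∈ Bo (0 : Z d) n,
      ε / 4 * ((2 * n + 1 : ℕ) : ℝ) ^ d ≤ ((cl M ω (Bo 0 ρ) y ∩ Bo 0 n).ncard : ℝ) →
      ∃ a, rep ω a ∈ cl M ω (Bo 0 ρ) y) {z x : Z d} {ω : M.ι → Bool} (hz : Bo z ρ ⊆ Bo 0 N)
    (hd : ω ∉ Du M (Bo 0 N) z n ρ ε) (hx : ε / 2 * ((2 * n + 1 : ℕ) : ℝ) ^ d ≤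
      ((cl M ω (Bo 0 N) x ∩ Bo z n).ncard : ℝ)) :
    ∃ a, (G M ω (Bo 0 N)).Reachable x (pl M ρ (fun s => rep (ex0 M ρ s)) ω z a) := by
  have hv : (0 : ℝ) < ε / 2 * ((2 * n + 1 : ℕ) : ℝ) ^ d := by positivity
  have hne : (cl M ω (Bo 0 N) x ∩ Bo z n).Nonempty := by
    by_contra hc
    rw [Set.not_nonempty_iff_eq_empty] at hc
    rw [hc, Set.ncard_empty, Nat.cast_zero] at hx
    linarith
  obtain ⟨x₁, hx₁, hx₁'⟩ := hne
  have e := cl_eq hx₁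
  have hd' : ∃ y ∈ cl M ω (Bo 0 N) x₁ ∩ Bo z n, ε / 4 * ((2 * n + 1 : ℕ) : ℝ) ^ d ≤
      ((cl M ω (Bo z ρ) y ∩ Bo z n).ncard : ℝ) := by
    by_contra hc
    push Not at hc
    exact hd ⟨x₁, hx₁', by rw [e]; exact hx, hc⟩
  obtain ⟨y, ⟨hy1, hy2⟩, hy3⟩ := hd'
  set ω' : M.ι → Bool := fun c => ω (M.tr (sf z) c) with hω'
  have hy4 : y - z ∈ Bo (0 : Z d) n := by
    rw [← mem_Bo_add (w := z), sub_add_cancel, zero_add]
    exact hy2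
  have e2 := cl_image M ω z 0 (y - z) ρ n
  rw [zero_add, sub_add_cancel] at e2
  rw [e2] at hy3
  obtain ⟨a, ha⟩ := h3 ω' (y - z) hy4 hy3
  refine ⟨a, ?_⟩
  have e3 : rep (ex0 M ρ (Ws M ρ z ω)) = rep ω' := h1 _ _ (ex0_Ws M ρ z ω)
  have h5 : (G M ω (Bo z ρ)).Reachable y (rep ω' a + z) := by
    have h6 : (G M ω' (Bo 0 ρ)).Reachable (y - z) (rep ω' a) := ha
    rw [hω', reach_shift, sub_add_cancel, zero_add] at h6
    exact h6
  unfold pl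
  simp only [e3]
  exact (SimpleGraph.Reachable.trans hx₁ hy1).trans (reach_mono hz h5)

/-- The hypothesis on pairs. -/
theorem pair (hdust : S_dust) {A g m J : ℕ} (M : Mod d) (p : unitInterval) {n ρ N ρ' : ℕ} {ε : ℝ}
    (hε : 0 < ε) {rep : (M.ι → Bool) → Fin A → Z d}
    (h1 : ∀ ω ω' : M.ι → Bool, (∀ c ∈ In M (Bo 0 ρ), ω c = ω' c) → rep ω = rep ω')
    (h3 : ∀ ω, ∀ y ∈ Bo (0 : Z d) n,
      ε / 4 * ((2 * n + 1 : ℕ) : ℝ) ^ d ≤ ((cl M ω (Bo 0 ρ) y ∩ Bo 0 n).ncard : ℝ) →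
      ∃ a, rep ω a ∈ cl M ω (Bo 0 ρ) y) (zz : Idx g m J → Z d) (I : Finset (Z d))
    (hI : ∀ k ∈ I, Bo ((2 * n + 1 : ℤ) • k) ρ ⊆ Bo 0 N ∧
      Bo 0 N ⊆ Bo ((2 * n + 1 : ℤ) • k) ρ')
    {q δ : ℝ} (hen : en M p n ρ' - en M p n ρ ≤ q)
    (hAI : (mu M p).real (AI M n N ε I)ᶜ ≤ δ) (t t' : Idx g m J)
    (ht : ∃ k ∈ I, zz t = (2 * n + 1 : ℤ) • k) (ht' : ∃ k ∈ I, zz t' = (2 * n + 1 : ℤ) • k) :
    (mu M p).real {ω | ∀ a b, ω ∈ Nn M ρ N (fun s => rep (ex0 M ρ s)) zz t a t' b} ≤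
      δ + 2 * (8 / ε ^ 2 * q) := by
  obtain ⟨k, hk, ek⟩ := ht
  obtain ⟨k', hk', ek'⟩ := ht'
  have hsub : {ω | ∀ a b, ω ∈ Nn M ρ N (fun s => rep (ex0 M ρ s)) zz t a t' b} ⊆
      (AI M n N ε I)ᶜ ∪ (Du M (Bo 0 N) (zz t) n ρ ε ∪ Du M (Bo 0 N) (zz t') n ρ ε) := by
    intro ω hω
    by_contra hcon
    simp only [mem_union, mem_compl_iff, not_or, not_not] at hcon
    obtain ⟨⟨x, hx⟩, hd1, hd2⟩ := hcon
    have hz1 : Bo (zz t) ρ ⊆ Bo 0 N := by rw [ek]; exact (hI k hk).1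
    have hz2 : Bo (zz t') ρ ⊆ Bo 0 N := by rw [ek']; exact (hI k' hk').1
    obtain ⟨a, ha⟩ := hit M hε h1 h3 hz1 hd1 (x := x) (by rw [ek]; exact hx k hk)
    obtain ⟨b, hb⟩ := hit M hε h1 h3 hz2 hd2 (x := x) (by rw [ek']; exact hx k' hk')
    exact hω a b (ha.symm.trans hb)
  have hdu : ∀ s : Idx g m J, (∃ k ∈ I, zz s = (2 * n + 1 : ℤ) • k) →
      (mu M p).real (Du M (Bo 0 N) (zz s) n ρ ε) ≤ 8 / ε ^ 2 * q := by
    rintro s ⟨k, hk, ek⟩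
    rw [ek]
    refine (hdust d M p (Bo 0 N) _ n ρ ρ' ε hε (hI k hk).1 (hI k hk).2).trans ?_
    exact mul_le_mul_of_nonneg_left hen (by positivity)
  have g1 := hdu t ⟨k, hk, ek⟩
  have g2 := hdu t' ⟨k', hk', ek'⟩
  refine (measureReal_mono hsub (measure_ne_top _ _)).trans ((measureReal_union_le _ _).trans ?_)
  have g3 := measureReal_union_le (μ := mu M p) (Du M (Bo 0 N) (zz t) n ρ ε)
    (Du M (Bo 0 N) (zz t') n ρ ε)
  linarith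

/-- A giant cluster has a large part of the cells of a dense set of indices. -/
theorem dense_set (hcfkg : S_cfkg) (htile : S_tile) (M : Mod d) (p : unitInterval) {n K r N : ℕ}
    {ε : ℝ} (hε : 0 < ε) (hrK : r ≤ K)
    (hK : (1 - ε / 4) * ((2 * K + 1 : ℕ) : ℝ) ^ d ≤ ((2 * (K - r) + 1 : ℕ) : ℝ) ^ d)
    (hN : N = K * (2 * n + 1) + n) {δ δ₀ : ℝ} (hδ : 0 ≤ δ) (hδ1 : δ ≤ 1) (hδ₀ : δ₀ < 1)
    (h0 : δ₀ ≤ δ ^ (2 ^ ((2 * K + 1) ^ d)))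
    (h : 1 - δ₀ < (mu M p).real {ω | ∃ x ∈ Bo (0 : Z d) N,
      ε * ((2 * N + 1 : ℕ) : ℝ) ^ d ≤ ((cl M ω (Bo 0 N) x).ncard : ℝ)}) :
    ∃ I : Finset (Z d), I ⊆ Bf 0 (K - r) ∧ ε / 4 * ((2 * K + 1 : ℕ) : ℝ) ^ d ≤ I.card ∧
      (mu M p).real (AI M n N ε I)ᶜ ≤ δ := by
  classical
  set F : Finset (Finset (Z d)) := (Bf (0 : Z d) (K - r)).powerset.filter
    (fun I => ε / 4 * ((2 * K + 1 : ℕ) : ℝ) ^ d ≤ I.card) with hF
  have hcov : ∀ ω, (∃ x ∈ Bo (0 : Z d) N, ε * ((2 * N + 1 : ℕ) : ℝ) ^ d ≤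
      ((cl M ω (Bo 0 N) x).ncard : ℝ)) → ∃ I ∈ F, ω ∈ AI M n N ε I := by
    rintro ω ⟨x, hx, hx2⟩
    have h5 := htile d n K r ε (cl M ω (Bo 0 N) x) hrK hε hK
      (by rw [← hN]; exact cl_subset hx) (by rw [← hN]; exact hx2)
    refine ⟨(Bf (0 : Z d) (K - r)).filter (fun k => ε / 2 * ((2 * n + 1 : ℕ) : ℝ) ^ d ≤
      ((cl M ω (Bo 0 N) x ∩ Bo ((2 * n + 1 : ℤ) • k) n).ncard : ℝ)), ?_, x, ?_⟩
    · rw [hF, Finset.mem_filter, Finset.mem_powerset]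
      refine ⟨Finset.filter_subset _ _, ?_⟩
      convert h5 using 2
    · intro k hk
      exact (Finset.mem_filter.1 hk).2
  have hne : F.Nonempty := by
    by_contra hc
    rw [Finset.not_nonempty_iff_eq_empty] at hc
    have : {ω : M.ι → Bool | ∃ x ∈ Bo (0 : Z d) N, ε * ((2 * N + 1 : ℕ) : ℝ) ^ d ≤
        ((cl M ω (Bo 0 N) x).ncard : ℝ)} = ∅ := by
      ext ω
      simp only [mem_ofPred_eq, mem_empty_iff_false, iff_false]
      intro hω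
      obtain ⟨I, hI, -⟩ := hcov ω hω
      rw [hc] at hI
      exact absurd hI (Finset.notMem_empty _)
    rw [this, measureReal_empty] at h
    linarith
  have hcard : F.card ≤ 2 ^ ((2 * K + 1) ^ d) := by
    refine (Finset.card_filter_le _ _).trans ?_
    rw [Finset.card_powerset, card_Bf]
    refine Nat.pow_le_pow_right (by norm_num) (Nat.pow_le_pow_left (by omega) d)
  have : Nonempty F := hne.to_subtype
  have q1 : ∀ I : F, DepOn (AI M n N ε I.1)ᶜ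
      ((In_fin M (Bo_finite (0 : Z d) N)).toFinset : Set M.ι) := by
    intro I ω ω' hh
    rw [Set.Finite.coe_toFinset] at hh
    exact not_congr (AI_dep M n N ε I.1 ω ω' hh)
  have q2 : ∀ I : F, Inc ((AI M n N ε I.1)ᶜ)ᶜ := by
    intro I
    rw [compl_compl]
    exact AI_inc M n N ε I.1
  have q3 : (pm fun _ : M.ι => p).real {ω : M.ι → Bool | ∀ I : F, ω ∈ (AI M n N ε I.1)ᶜ} ≤
      δ ^ Fintype.card F := by
    set Gi : Set (M.ι → Bool) := {ω | ∃ x ∈ Bo (0 : Z d) N, ε * ((2 * N + 1 : ℕ) : ℝ) ^ d ≤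
        ((cl M ω (Bo 0 N) x).ncard : ℝ)} with hGi
    have hGm : MeasurableSet Gi := by
      have h2 : DepOn Gi ((In_fin M (Bo_finite (0 : Z d) N)).toFinset : Set M.ι) := by
        rw [Set.Finite.coe_toFinset]
        intro ω ω' hh
        rw [hGi]
        simp only [mem_ofPred_eq]
        refine exists_congr fun x => and_congr_right fun _ => ?_
        rw [cl_dep x hh]
      exact Pool.Agent.W45.PC.s_depmeas _ _ _ h2
    have hsub : {ω : M.ι → Bool | ∀ I : F, ω ∈ (AI M n N ε I.1)ᶜ} ⊆ Giᶜ := by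
      intro ω hω hc
      obtain ⟨I, hI, hI2⟩ := hcov ω hc
      exact hω ⟨I, hI⟩ hI2
    refine (measureReal_mono hsub (measure_ne_top _ _)).trans ?_
    have h6 : (mu M p).real Giᶜ = 1 - (mu M p).real Gi := by
      rw [measureReal_compl hGm, probReal_univ]
    have h7 : (pm fun _ : M.ι => p).real Giᶜ = (mu M p).real Giᶜ := rfl
    rw [h7, h6]
    have h8 : δ ^ (2 ^ ((2 * K + 1) ^ d)) ≤ δ ^ Fintype.card F := by
      rw [Fintype.card_coe]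
      exact pow_le_pow_of_le_one hδ hδ1 hcard
    linarith
  obtain ⟨⟨I, hI⟩, hI2⟩ := sqr hcfkg (fun _ : M.ι => p)
    ((In_fin M (Bo_finite (0 : Z d) N)).toFinset) (fun I : F => (AI M n N ε I.1)ᶜ) q1 q2 hδ q3
  rw [hF, Finset.mem_filter, Finset.mem_powerset] at hI
  exact ⟨I, hI.1, hI.2, hI2⟩

end

end Pool.Agent.Y990.SH
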