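import Pool.Agent.Y990.SH.Geo2
import Pool.Agent.Y990.SH.Geo4
import Pool.Agent.Y975.SH.Sel
import Pool.Agent.Y705.SH.Half
import Pool.Agent.Y884.SH.Pos
import Pool.Agent.Y761.SH.Iid
import Pool.Agent.Y587.SH.Dust
import Pool.Agent.Y587.SH.Crit
import Pool.Agent.Y188.SH.RepTile
import Pool.Agent.Y333.CB.Sim

set_option autoImplicit false

open MeasureTheory Set

/-!
Project SH: no giant cluster at the critical point.
-/

namespace Pool.Agent.Y990.SH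

open Pool.Agent.W783.PC (pm DepOn Inc)
open Pool.Agent.Y990.CB

noncomputable section

variable {d : ℕ}

lemma en_nonneg (M : Mod d) (p : unitInterval) (n ρ : ℕ) : 0 ≤ en M p n ρ := by
  unfold en
  refine div_nonneg ?_ (by positivity)
  exact Finset.sum_nonneg fun x _ => Finset.sum_nonneg fun y _ => measureReal_nonneg

lemma en_le_one (M : Mod d) (p : unitInterval) (n ρ : ℕ) : en M p n ρ ≤ 1 := by
  unfold en
  rw [div_le_one (by positivity)]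
  calc ∑ x ∈ Bf (0 : Z d) n, ∑ y ∈ Bf (0 : Z d) n, (mu M p).real (Cn M (Bo 0 ρ) x y)
      ≤ ∑ x ∈ Bf (0 : Z d) n, ∑ y ∈ Bf (0 : Z d) n, (1 : ℝ) :=
        Finset.sum_le_sum fun x _ => Finset.sum_le_sum fun y _ => measureReal_le_one
    _ = _ := by
        rw [Finset.sum_const, Finset.sum_const, card_Bf, nsmul_eq_mul, nsmul_eq_mul]
        push_cast
        ring

/-- Large boxes have a thin boundary layer. -/
lemma thin (d r : ℕ) {e : ℝ} (he : 0 < e) : ∃ K₁ : ℕ, ∀ K : ℕ, K₁ ≤ K → r ≤ K →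
    (1 - e) * ((2 * K + 1 : ℕ) : ℝ) ^ d ≤ ((2 * (K - r) + 1 : ℕ) : ℝ) ^ d := by
  refine ⟨⌈2 * r * d / e⌉₊, fun K hK hr => ?_⟩
  have h1 : 2 * (r : ℝ) * d / e ≤ K := (Nat.le_ceil _).trans (by exact_mod_cast hK)
  rw [div_le_iff₀ he] at h1
  have hr' : (r : ℝ) ≤ K := by exact_mod_cast hr
  have hK0 : (0 : ℝ) < 2 * K + 1 := by positivity
  have h2 : (((2 * (K - r) + 1 : ℕ) : ℝ)) = (2 * K + 1) * (1 + (-(2 * r / (2 * K + 1)))) := by
    push_cast [Nat.cast_sub hr]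
    field_simp
    ring
  have h3 : (1 : ℝ) + d * (-(2 * r / (2 * K + 1))) ≤ (1 + (-(2 * r / (2 * K + 1)))) ^ d := by
    refine one_add_mul_le_pow ?_ d
    have : 2 * (r : ℝ) / (2 * K + 1) ≤ 1 := by
      rw [div_le_one hK0]
      linarith
    linarith
  have h4 : (d : ℝ) * (2 * r / (2 * K + 1)) ≤ e := by
    rw [mul_div_assoc', div_le_iff₀ hK0]
    nlinarith
  rw [h2, mul_pow, mul_comm]
  have e5 : (((2 * K + 1 : ℕ)) : ℝ) = 2 * K + 1 := by push_cast; ring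
  rw [e5]
  exact mul_le_mul_of_nonneg_left (by linarith) (by positivity)

/-- A bounded monotone sequence has a small increment. -/
lemma small_inc (S : ℕ) (hS : 1 ≤ S) (e : ℕ → ℝ) (h0 : 0 ≤ e 0) (h1 : e S ≤ 1) :
    ∃ j < S, e (j + 1) - e j ≤ 1 / S := by
  by_contra hcon
  push Not at hcon
  have h2 : ∑ j ∈ Finset.range S, (1 / (S : ℝ)) < ∑ j ∈ Finset.range S, (e (j + 1) - e j) :=
    Finset.sum_lt_sum_of_nonempty (Finset.nonempty_range_iff.2 (by omega))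
      fun j hj => hcon j (Finset.mem_range.1 hj)
  rw [Finset.sum_range_sub, Finset.sum_const, Finset.card_range, nsmul_eq_mul] at h2
  have hS' : (0 : ℝ) < S := by exact_mod_cast hS
  rw [mul_one_div_cancel hS'.ne'] at h2
  linarith

/-- **No giant cluster at the critical point.** -/
theorem nogiant (hd : 2 ≤ d) (M : Mod d) (hM : Nd M) (hF : Fu M) (ε : ℝ) (hε : 0 < ε) :
    ∃ (Ks : ℕ) (δ₀ : ℝ), 0 < δ₀ ∧ ∀ n : ℕ, ∃ K : ℕ, 1 ≤ K ∧ K ≤ Ks ∧
      (mu M (pc M)).real {ω | ∃ x ∈ Bo (0 : Z d) (K * (2 * n + 1) + n),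
        ε * ((2 * (K * (2 * n + 1) + n) + 1 : ℕ) : ℝ) ^ d ≤
          ((cl M ω (Bo 0 (K * (2 * n + 1) + n)) x).ncard : ℝ)} ≤ 1 - δ₀ := by
  classical
  wlog hε1 : ε ≤ 1 generalizing ε
  · obtain ⟨Ks, δ₀, h0, h⟩ := this 1 one_pos le_rfl
    refine ⟨Ks, δ₀, h0, fun n => ?_⟩
    obtain ⟨K, hK1, hK2, hK⟩ := h n
    refine ⟨K, hK1, hK2, le_trans (measureReal_mono ?_ (measure_ne_top _ _)) hK⟩
    rintro ω ⟨x, hx, hx2⟩
    refine ⟨x, hx, le_trans ?_ hx2⟩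
    exact mul_le_mul_of_nonneg_right (not_le.1 hε1).le (by positivity)
  have hpos : 0 < pc M := Pool.Agent.Y333.CB.pc_pos d M hM
  set p := pc M with hp
  set i : Fin d := ⟨0, by omega⟩ with hi
  set j : Fin d := ⟨1, by omega⟩ with hj
  have hij : i ≠ j := by
    intro h
    have := congrArg Fin.val h
    simp [hi, hj] at this
  set A : ℕ := ⌈4 / ε⌉₊ with hA
  have hAε : 4 / ε ≤ A := Nat.le_ceil _
  have hA1 : 1 ≤ A := by
    have : (0 : ℝ) < A := lt_of_lt_of_le (by positivity) hAε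
    exact_mod_cast this
  set β : ℝ := ε / 4 with hβ
  have hβ0 : 0 < β := by positivity
  set α : ℝ := β / 2 ^ (d + 1) with hα
  have hα0 : 0 < α := by positivity
  obtain ⟨g, hg, hcore⟩ := core Pool.Agent.Y975.SH.sel Pool.Agent.Y705.SH.half
    Pool.Agent.Y705.SH.badp A α hA1 hα0
  have hgr : (1 : ℝ) ≤ g := by exact_mod_cast hg
  set c : ℝ := 1 / (160 * 10 ^ 12 * g ^ 2) with hc
  obtain ⟨m, J, δc, hδc, hcoreAt⟩ := hcore c (by positivity)
  set δ : ℝ := min (δc / 2) 1 with hδ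
  have hδ0 : 0 < δ := lt_min (by linarith) one_pos
  have hδ1 : δ ≤ 1 := min_le_right _ _
  have hδ2 : δ ≤ δc / 2 := min_le_left _ _
  set Sn : ℕ := ⌈32 / (ε ^ 2 * δc)⌉₊ + 1 with hSn
  have hSn1 : 1 ≤ Sn := Nat.le_add_left 1 _
  have hSnr : (0 : ℝ) < Sn := by exact_mod_cast hSn1
  have hSn2 : 2 * (8 / ε ^ 2 * (1 / Sn)) ≤ δc / 2 := by
    have h1 : 32 / (ε ^ 2 * δc) ≤ Sn := by
      refine (Nat.le_ceil _).trans ?_
      rw [hSn]
      push_cast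
      linarith
    rw [div_le_iff₀ (by positivity)] at h1
    have e : 2 * (8 / ε ^ 2 * (1 / (Sn : ℝ))) = 16 / (ε ^ 2 * Sn) := by field_simp; norm_num
    rw [e, div_le_iff₀ (by positivity)]
    linarith
  -- the scales
  have hstep : ∀ r : ℕ, ∃ K : ℕ, 1 ≤ K ∧ r ≤ K ∧ g ≤ K ∧
      (1 - ε / 4) * ((2 * K + 1 : ℕ) : ℝ) ^ d ≤ ((2 * (K - r) + 1 : ℕ) : ℝ) ^ d ∧
      ∀ I : Finset (Fin d → ℤ), (∀ k ∈ I, ∀ u, |k u| ≤ K) →
        β * (2 * K + 1 : ℕ) ^ d ≤ I.card →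
        ∃ (S : Finset (Fin g × Fin g)) (κ : Fin m → Fin d → ℤ) (l : Fin J → Fin d → ℤ),
        β / 2 ^ (d + 1) * (g : ℝ) ^ 2 ≤ S.card ∧
        (∀ s ∈ S, ∀ q : Fin m, ps (J := J) i j (K / g) κ l (Sum.inl (s, q)) ∈ I) ∧
        (∀ q : Fin J, l q ∈ I) ∧
        ∀ t t' : Idx g m J, t ≠ t' →
        ∃ u, 2 * (r : ℤ) < |ps i j (K / g) κ l t u - ps i j (K / g) κ l t' u| := by
    intro r
    obtain ⟨K₀, hK₀⟩ := Pool.Agent.Y884.SH.pos d i j β g m J r hij hβ0 (by rw [hβ]; linarith) hg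
    obtain ⟨K₁, hK₁⟩ := thin d r (show (0 : ℝ) < ε / 4 by positivity)
    refine ⟨K₀ + K₁ + r + g + 1, by omega, by omega, by omega,
      hK₁ _ (by omega) (by omega), hK₀ _ (by omega)⟩
  choose f hf1 hf2 hf3 hf4 hf5 using hstep
  set r : ℕ → ℕ := fun k => Nat.rec 0 (fun _ x => 2 * f x) k with hr
  have hr1 : ∀ k, r (k + 1) = 2 * f (r k) := fun k => rfl
  set Ks : ℕ := ∑ k ∈ Finset.range Sn, f (r k) with hKs
  refine ⟨Ks, min (δ ^ (2 ^ ((2 * Ks + 1) ^ d))) (1 / 2), lt_min (pow_pos hδ0 _) (by norm_num),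
    fun n => ?_⟩
  by_contra hcon
  push Not at hcon
  obtain ⟨k, hk, hinc⟩ := small_inc Sn hSn1 (fun k => en M p n (r k * (2 * n + 1) + n))
    (en_nonneg _ _ _ _) (en_le_one _ _ _ _)
  obtain ⟨K, hKdef⟩ : ∃ K, K = f (r k) := ⟨_, rfl⟩
  obtain ⟨R, hR⟩ : ∃ R, R = r k := ⟨_, rfl⟩
  have hK1 : 1 ≤ K := by rw [hKdef]; exact hf1 _
  have hK2 : R ≤ K := by rw [hKdef, hR]; exact hf2 _
  have hK3 : g ≤ K := by rw [hKdef]; exact hf3 _
  have hK4 := hf4 (r k)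
  have hK5 := hf5 (r k)
  rw [← hKdef, ← hR] at hK4 hK5
  have hKs2 : K ≤ Ks := by
    rw [hKdef]
    exact Finset.single_le_sum (f := fun k => f (r k)) (fun _ _ => Nat.zero_le _)
      (Finset.mem_range.2 hk)
  simp only [hr1] at hinc
  rw [← hKdef, ← hR] at hinc
  obtain ⟨ρ, hρ⟩ : ∃ ρ, ρ = R * (2 * n + 1) + n := ⟨_, rfl⟩
  obtain ⟨N, hN⟩ : ∃ N, N = K * (2 * n + 1) + n := ⟨_, rfl⟩
  obtain ⟨ρ', hρ'⟩ : ∃ ρ', ρ' = 2 * K * (2 * n + 1) + n := ⟨_, rfl⟩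
  rw [← hρ, ← hρ'] at hinc
  have hbig := hcon K hK1 hKs2
  rw [← hN] at hbig
  obtain ⟨I, hI1, hI2, hI3⟩ := dense_set Pool.Agent.Y761.SH.cfkg Pool.Agent.Y188.SH.tile M p hε hK2
    hK4 hN hδ0.le hδ1 (lt_of_le_of_lt (min_le_right _ _) (by norm_num : (1 / 2 : ℝ) < 1))
    ((min_le_left _ _).trans (pow_le_pow_of_le_one hδ0.le hδ1
      (Nat.pow_le_pow_right (by norm_num) (Nat.pow_le_pow_left (by omega) d)))) hbig
  have hI4 : ∀ k ∈ I, ∀ u, |k u| ≤ ((K - R : ℕ) : ℤ) := by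
    intro k hk u
    have h1 := mem_Bf.1 (hI1 hk) u
    simpa using h1
  obtain ⟨S, κ, l, hS, hS1, hS2, hS3⟩ := hK5 I (fun k hk u => (hI4 k hk u).trans (by
    exact_mod_cast Nat.sub_le K R)) (by rw [hβ]; exact hI2)
  set zz : Idx g m J → Z d := fun t => (2 * n + 1 : ℤ) • ps i j (K / g) κ l t with hzz
  obtain ⟨rep, hrep1, hrep2, hrep3⟩ := Pool.Agent.Y188.SH.rep d M n ρ A ε hε hAε
  -- disjoint neighbourhoods
  have hdisj : ∀ t t', t ≠ t' → Disjoint (Bo (zz t) ρ) (Bo (zz t') ρ) := by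
    intro t t' htt
    obtain ⟨u, hu⟩ := hS3 t t' htt
    rw [Set.disjoint_left]
    intro x hx hx'
    have h1 := abs_le.1 (hx u)
    have h2 := abs_le.1 (hx' u)
    have h3 : |zz t u - zz t' u| ≤ 2 * ρ := by
      rw [abs_le]
      constructor <;> linarith [h1.1, h1.2, h2.1, h2.2]
    have h4 : zz t u - zz t' u = (2 * n + 1) * (ps i j (K / g) κ l t u - ps i j (K / g) κ l t' u) := by
      simp only [hzz, Pi.smul_apply, smul_eq_mul]
      ring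
    rw [h4, abs_mul, abs_of_nonneg (by positivity : (0 : ℤ) ≤ 2 * n + 1)] at h3
    have h5 : (2 * (n : ℤ) + 1) * (2 * R + 1) ≤ (2 * n + 1) *
        |ps i j (K / g) κ l t u - ps i j (K / g) κ l t' u| :=
      mul_le_mul_of_nonneg_left (by linarith) (by positivity)
    rw [hρ] at h3
    push_cast at h3
    nlinarith
  -- the cells with index in I
  have hIcell : ∀ k ∈ I, Bo ((2 * n + 1 : ℤ) • k) ρ ⊆ Bo (0 : Z d) N ∧
      Bo (0 : Z d) N ⊆ Bo ((2 * n + 1 : ℤ) • k) ρ' := by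
    intro k hk
    have hkR : ((K - R : ℕ) : ℤ) = K - R := by rw [Nat.cast_sub hK2]
    have hk' : ∀ u, |((2 * n + 1 : ℤ) • k) u| ≤ (2 * n + 1) * (K - R) := by
      intro u
      rw [Pi.smul_apply, smul_eq_mul, abs_mul, abs_of_nonneg (by positivity : (0 : ℤ) ≤ 2 * n + 1),
        ← hkR]
      exact mul_le_mul_of_nonneg_left (hI4 k hk u) (by positivity)
    have hR0 : (0 : ℤ) ≤ (2 * n + 1) * R := by positivity
    constructor
    · intro x hx u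
      have h1 := abs_le.1 (hx u)
      have h2 := abs_le.1 (hk' u)
      rw [hρ] at h1
      rw [hN, Pi.zero_apply, sub_zero, abs_le]
      push_cast at h1 ⊢
      constructor <;> nlinarith [h1.1, h1.2, h2.1, h2.2]
    · intro x hx u
      have h1 := abs_le.1 (hx u)
      have h2 := abs_le.1 (hk' u)
      rw [hN, Pi.zero_apply, sub_zero] at h1
      rw [hρ', abs_le]
      push_cast at h1 ⊢
      constructor <;> nlinarith [h1.1, h1.2, h2.1, h2.2]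
  -- pairs
  have hpair : ∀ s ∈ S, ∀ (q : Fin m) (q' : Fin J), (mu M p).real {ω | ∀ a b,
      ω ∈ Nn M ρ N (fun s => rep (ex0 M ρ s)) zz (Sum.inl (s, q)) a (Sum.inr q') b} ≤ δc := by
    intro s hs q q'
    refine (pair Pool.Agent.Y587.SH.dust M p hε hrep1 hrep3 zz I hIcell hinc hI3 (Sum.inl (s, q))
      (Sum.inr q') ⟨_, hS1 s hs q, rfl⟩ ⟨_, hS2 q', rfl⟩).trans ?_
    linarith
  obtain ⟨a₀, a₁, b₀, b₁, T, ha, hb, hC, hGo⟩ := core_geo M p ρ N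
    (fun s => rep (ex0 M ρ s)) zz Pool.Agent.Y761.SH.cfkg Pool.Agent.Y761.SH.iid hA1 hcoreAt hdisj S
    hS hpair
  have hKg : 1 ≤ K / g := (Nat.one_le_div_iff (by omega)).2 hK3
  have g1 : N ≤ 2 * g * ((2 * n + 1) * (K / g)) := by
    have h1 := Nat.div_add_mod K g
    have h2 := Nat.mod_lt K (by omega : 0 < g)
    have h3 : g ≤ g * (K / g) := Nat.le_mul_of_pos_right g (by omega)
    have h4 : K + 1 ≤ 2 * (g * (K / g)) := by omega
    have h5 : N ≤ (K + 1) * (2 * n + 1) := by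
      rw [hN, add_mul]
      omega
    calc N ≤ (K + 1) * (2 * n + 1) := h5
      _ ≤ 2 * (g * (K / g)) * (2 * n + 1) := Nat.mul_le_mul_right _ h4
      _ = 2 * g * ((2 * n + 1) * (K / g)) := by ring
  have g2 : ∀ (s : Fin g × Fin g) (q : Fin m), zz (Sum.inl (s, q)) =
      zz (Sum.inl ((⟨0, by omega⟩, ⟨0, by omega⟩), q)) +
      Pi.single i ((((2 * n + 1) * (K / g) : ℕ) : ℤ) * (s.1 : ℕ)) +
      Pi.single j ((((2 * n + 1) * (K / g) : ℕ) : ℤ) * (s.2 : ℕ)) := by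
    intro s q
    simp only [hzz, ps]
    funext u
    simp only [Pi.smul_apply, Pi.add_apply, smul_eq_mul, Pi.single_apply]
    push_cast
    split_ifs <;> ring
  have g3 : ∀ s ∈ Cor a₀ a₁ b₀ b₁, ∀ q, Bo (zz (Sum.inl (s, q))) ρ ⊆ Bo 0 N := by
    intro s hs q
    exact (hIcell _ (hS1 s (hC hs) q)).1
  have g4 : 80 * (g : ℝ) ^ 2 * (2 * c) ≤ 1 / 10 ^ 12 := by
    rw [hc]
    field_simp
    norm_num
  obtain ⟨δ', hδ', hcr⟩ := blocks Pool.Agent.Y587.SH.crit3 M hF p i j hij ρ N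
    (fun s => rep (ex0 M ρ s)) (fun x a => Bo_mono 0 (by rw [hN]; omega) (hrep2 _ a)) T
    (fun t => zz (Sum.inl t)) ((2 * n + 1) * (K / g)) (Nat.mul_pos (by omega) (by omega)) hg g1 g2
    a₀ a₁ b₀ b₁ ha hb g3 (2 * c) hGo g4
  exact pc_not_open M hpos δ' hδ' hcr

end

end Pool.Agent.Y990.SH
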