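import Pool.Agent.Y990.SH.Main

set_option autoImplicit false

open MeasureTheory Set Filter
open scoped Topology

/-!
Project SH: no giant cluster at the critical point, convenient forms.
-/

namespace Pool.Agent.Y990.SH

open Pool.Agent.W783.PC (pm DepOn Inc)
open Pool.Agent.Y990.CB

noncomputable section

variable {d : ℕ}

/-- The event that there is a giant cluster in the box. -/
def Gi (M : Mod d) (N : ℕ) (a : ℝ) : Set (M.ι → Bool) :=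
  {ω | ∃ x ∈ Bo (0 : Z d) N, a ≤ ((cl M ω (Bo 0 N) x).ncard : ℝ)}

lemma Gi_meas (M : Mod d) (N : ℕ) (a : ℝ) : MeasurableSet (Gi M N a) := by
  have h2 : DepOn (Gi M N a) ((In_fin M (Bo_finite (0 : Z d) N)).toFinset : Set M.ι) := by
    rw [Set.Finite.coe_toFinset]
    intro ω ω' hh
    unfold Gi
    simp only [mem_ofPred_eq]
    refine exists_congr fun x => and_congr_right fun _ => ?_
    rw [cl_dep x hh]
  exact Pool.Agent.W45.PC.s_depmeas _ _ _ h2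

theorem nogiantR (hd : 2 ≤ d) (M : Mod d) (hM : Nd M) (hF : Fu M) (ε : ℝ) (hε : 0 < ε) (R : ℕ)
    (hR : 1 ≤ R) : ∃ (C : ℕ) (c : ℝ), 0 < c ∧ ∀ N : ℕ, 1 ≤ N → ∃ N' : ℕ, N ≤ N' ∧ N' ≤ C * N ∧
      c ≤ (mu M (pc M)).real (Gi M (R * N') (ε * ((2 * N' + 1 : ℕ) : ℝ) ^ d))ᶜ := by
  have hRr : (1 : ℝ) ≤ R := by exact_mod_cast hR
  obtain ⟨Ks, δ₀, hδ₀, h⟩ := nogiant hd M hM hF (ε / (3 * R) ^ d) (by positivity)
  refine ⟨3 * Ks + 1, δ₀, hδ₀, fun N hN1 => ?_⟩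
  obtain ⟨K, hK1, hK2, hK⟩ := h (R * N)
  obtain ⟨N₂, hN₂⟩ : ∃ N₂, N₂ = K * (2 * (R * N) + 1) + R * N := ⟨_, rfl⟩
  rw [← hN₂] at hK
  have hRN : 1 ≤ R * N := Nat.mul_pos (by omega) (by omega)
  have hmod := Nat.div_add_mod N₂ R
  have hlt := Nat.mod_lt N₂ (by omega : 0 < R)
  have hR0 : 0 < R := by omega
  have hle1 : N ≤ N₂ / R := by
    rw [Nat.le_div_iff_mul_le hR0, hN₂, mul_comm N R]
    exact Nat.le_add_left _ _
  have hle2 : N₂ / R ≤ (3 * Ks + 1) * N := by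
    have h1 : N₂ ≤ (3 * Ks + 1) * N * R := by
      have h2 : K * (2 * (R * N) + 1) ≤ Ks * (3 * (R * N)) := Nat.mul_le_mul hK2 (by omega)
      calc N₂ = K * (2 * (R * N) + 1) + R * N := hN₂
        _ ≤ Ks * (3 * (R * N)) + R * N := Nat.add_le_add_right h2 _
        _ = (3 * Ks + 1) * N * R := by ring
    exact Nat.div_le_of_le_mul (by rw [mul_comm]; exact h1)
  refine ⟨N₂ / R, hle1, hle2, ?_⟩
  have hle3 : R * (N₂ / R) ≤ N₂ := Nat.mul_div_le N₂ R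
  have hle4 : (2 * N₂ + 1 : ℝ) ≤ 3 * R * (2 * ((N₂ / R : ℕ) : ℝ) + 1) := by
    have h1 : N₂ ≤ R * (N₂ / R) + R := by omega
    have h2 : (N₂ : ℝ) ≤ R * ((N₂ / R : ℕ) : ℝ) + R := by exact_mod_cast h1
    have h3 : (0 : ℝ) ≤ R * ((N₂ / R : ℕ) : ℝ) := by positivity
    nlinarith
  have hK' : (mu M (pc M)).real (Gi M N₂ (ε / (3 * R) ^ d * ((2 * N₂ + 1 : ℕ) : ℝ) ^ d)) ≤
      1 - δ₀ := hK
  have hc := measureReal_compl (μ := mu M (pc M))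
    (Gi_meas M N₂ (ε / (3 * R) ^ d * ((2 * N₂ + 1 : ℕ) : ℝ) ^ d))
  rw [probReal_univ] at hc
  have h6 : ε / (3 * R) ^ d * ((2 * N₂ + 1 : ℕ) : ℝ) ^ d ≤
      ε * ((2 * (N₂ / R) + 1 : ℕ) : ℝ) ^ d := by
    have h7 : ((2 * N₂ + 1 : ℕ) : ℝ) ^ d ≤ (3 * R * (2 * ((N₂ / R : ℕ) : ℝ) + 1)) ^ d := by
      refine pow_le_pow_left₀ (Nat.cast_nonneg _) ?_ d
      push_cast
      exact hle4
    calc ε / (3 * R) ^ d * ((2 * N₂ + 1 : ℕ) : ℝ) ^ d
        ≤ ε / (3 * R) ^ d * (3 * R * (2 * ((N₂ / R : ℕ) : ℝ) + 1)) ^ d :=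
          mul_le_mul_of_nonneg_left h7 (by positivity)
      _ = ε * ((2 * (N₂ / R) + 1 : ℕ) : ℝ) ^ d := by
          rw [mul_pow (3 * (R : ℝ))]
          push_cast
          field_simp
  have hsub : Gi M (R * (N₂ / R)) (ε * ((2 * (N₂ / R) + 1 : ℕ) : ℝ) ^ d) ⊆
      Gi M N₂ (ε / (3 * R) ^ d * ((2 * N₂ + 1 : ℕ) : ℝ) ^ d) := by
    rintro ω ⟨x, hx, hx2⟩
    have hbo := Bo_mono (0 : Z d) hle3
    refine ⟨x, hbo hx, ?_⟩
    have h5 : (cl M ω (Bo 0 (R * (N₂ / R))) x).ncard ≤ (cl M ω (Bo 0 N₂) x).ncard :=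
      Set.ncard_le_ncard (cl_mono (fun _ h => h) hbo x)
        ((Bo_finite 0 N₂).subset (cl_subset (hbo hx)))
    calc _ ≤ _ := h6
      _ ≤ _ := hx2
      _ ≤ _ := by exact_mod_cast h5
  calc δ₀ ≤ 1 - (mu M (pc M)).real (Gi M N₂ (ε / (3 * R) ^ d * ((2 * N₂ + 1 : ℕ) : ℝ) ^ d)) := by
        linarith
    _ = (mu M (pc M)).real (Gi M N₂ (ε / (3 * R) ^ d * ((2 * N₂ + 1 : ℕ) : ℝ) ^ d))ᶜ := hc.symm
    _ ≤ _ := measureReal_mono (Set.compl_subset_compl.2 hsub) (measure_ne_top _ _)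

theorem nogiantT (hd : 2 ≤ d) (M : Mod d) (hM : Nd M) (hF : Fu M) (ε : ℝ) (hε : 0 < ε)
    (E : ℕ → Set (M.ι → Bool)) (hE : ∀ N, E N ⊆ Gi M N (ε * ((2 * N + 1 : ℕ) : ℝ) ^ d)) :
    ¬ Tendsto (fun N : ℕ => (mu M (pc M)).real (E N)) atTop (𝓝 1) := by
  intro hT
  obtain ⟨C, c, hc, h⟩ := nogiantR hd M hM hF ε hε 1 le_rfl
  have h1 := hT.eventually (lt_mem_nhds (show 1 - c < (1 : ℝ) by linarith))
  obtain ⟨N0, hN0⟩ := eventually_atTop.1 h1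
  obtain ⟨N', hN1, -, h2⟩ := h (N0 + 1) (by omega)
  have h3 := hN0 N' (by omega)
  rw [one_mul] at h2
  have h4 := measureReal_compl (μ := mu M (pc M)) (Gi_meas M N' (ε * ((2 * N' + 1 : ℕ) : ℝ) ^ d))
  rw [probReal_univ] at h4
  have h5 := measureReal_mono (μ := mu M (pc M)) (hE N') (measure_ne_top _ _)
  linarith

lemma sf_comp (a b x : Z d) : sf a (sf b x) = sf (a + b) x := by
  show (x + b) + a = x + (a + b)
  rw [add_assoc, add_comm b a]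

/-- The translations act: site percolation. -/
lemma fu_site (d : ℕ) : Fu (siteM d) := fun a b c => sf_comp a b c

lemma map_comp (a b : Z d) (c : Sym2 (Z d)) :
    Sym2.map (sf a) (Sym2.map (sf b) c) = Sym2.map (sf (a + b)) c := by
  rw [Sym2.map_map]
  congr 1
  funext x
  exact sf_comp a b x

/-- The translations act: bond percolation. -/
lemma fu_bond (d : ℕ) : Fu (bondM d) := fun a b c => map_comp a b c

end

end Pool.Agent.Y990.SH
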